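import Pool.Agent.Run7.h742.DG.Sli

/-!
# The truncated counting function at almost all polynomials (helper742)
-/

set_option autoImplicit false

namespace Run7.h742.DG

open Polynomial Pool.Agent.TH910.Voj Run7.h742.UN

theorem polOf_cons (m : ℕ) (W : ℤ[X]) (z : Fin (m + 2) → ℤ) :
    polOf (m + 2) W z = polOf (m + 2) W (Fin.cons 0 (Fin.tail z)) + C (z 0) := by
  unfold polOf
  rw [Fin.sum_univ_succ (f := fun i : Fin (m + 2) => C (z i) * X ^ (i : ℕ)),
    Fin.sum_univ_succ (f := fun i : Fin (m + 2) =>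
      C ((Fin.cons 0 (Fin.tail z) : Fin (m + 2) → ℤ) i) * X ^ (i : ℕ))]
  simp only [Fin.cons_zero, Fin.cons_succ, Fin.tail, map_zero, zero_mul, Fin.val_zero, pow_zero,
    mul_one]
  ring

theorem cons_box {m B : ℕ} {z : Fin (m + 2) → ℤ} (hz : ∀ i, |z i| ≤ (B : ℤ)) :
    ∀ i, |(Fin.cons 0 (Fin.tail z) : Fin (m + 2) → ℤ) i| ≤ (B : ℤ) := by
  intro i
  refine Fin.cases ?_ (fun i => ?_) i
  · rw [Fin.cons_zero, abs_zero]; positivity
  · rw [Fin.cons_succ]; exact hz _

/-- counting by the first coordinate -/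
theorem fibre_count (m B : ℕ) (N : ℝ) (Z : Finset (Fin (m + 1) → ℤ))
    (hZ : ∀ z ∈ Z, ∀ i, |z i| ≤ (B : ℤ))
    (hN : ∀ w : Fin m → ℤ, ∀ T : Finset ℤ, (∀ t ∈ T, (Fin.cons t w : Fin (m + 1) → ℤ) ∈ Z) →
      (T.card : ℝ) ≤ N) : (Z.card : ℝ) ≤ (2 * B + 1) ^ m * N := by
  classical
  set box : Finset (Fin m → ℤ) := Fintype.piFinset fun _ => Finset.Icc (-(B : ℤ)) B with hbox
  have hbc : (box.card : ℝ) = (2 * B + 1) ^ m := by
    rw [hbox, Fintype.card_piFinset]
    simp only [Int.card_Icc, Finset.prod_const, Finset.card_univ, Fintype.card_fin]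
    push_cast
    congr 1
    have : ((B : ℤ) + 1 - -(B : ℤ)).toNat = 2 * B + 1 := by omega
    rw [this]
    push_cast
    ring
  have hmaps : ∀ z ∈ Z, Fin.tail z ∈ box := by
    intro z hz
    rw [hbox, Fintype.mem_piFinset]
    intro i
    rw [Finset.mem_Icc, ← abs_le]
    exact hZ z hz _
  rw [Finset.card_eq_sum_card_fiberwise hmaps]
  push_cast
  rw [← hbc, ← nsmul_eq_mul, ← Finset.sum_const]
  refine Finset.sum_le_sum fun w _ => ?_
  set Y := Z.filter fun z => Fin.tail z = w with hY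
  have h1 : (Y.image fun z => z 0).card = Y.card := by
    refine Finset.card_image_of_injOn fun z hz z' hz' h => ?_
    rw [Finset.mem_coe, hY, Finset.mem_filter] at hz hz'
    rw [← Fin.cons_self_tail z, ← Fin.cons_self_tail z', hz.2, hz'.2]
    congr 1
  rw [← h1]
  refine hN w _ fun t ht => ?_
  obtain ⟨z, hz, rfl⟩ := Finset.mem_image.1 ht
  rw [hY, Finset.mem_filter] at hz
  rw [← hz.2, Fin.cons_self_tail]
  exact hz.1

/-- the tails for which two of the values coincide -/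
theorem tail_bad (R : Finset ℂ) (m B : ℕ) (W : ℤ[X]) (Z : Finset (Fin (m + 1) → ℤ))
    (hZ : ∀ z ∈ Z, (∀ i, |z i| ≤ (B : ℤ)) ∧ ∃ x ∈ R, ∃ y ∈ R, x ≠ y ∧
      ((polOf (m + 2) W (Fin.cons 0 z)).map (Int.castRingHom ℂ)).eval x =
        ((polOf (m + 2) W (Fin.cons 0 z)).map (Int.castRingHom ℂ)).eval y) :
    (Z.card : ℝ) ≤ (2 * B + 1) ^ m * (R.card ^ 2) := by
  classical
  refine fibre_count m B _ Z (fun z hz => (hZ z hz).1) fun w T hT => ?_
  -- each pair gives one value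
  have hev : ∀ (x : ℂ) (t : ℤ),
      ((polOf (m + 2) W (Fin.cons 0 (Fin.cons t w : Fin (m + 1) → ℤ))).map
        (Int.castRingHom ℂ)).eval x =
      (W.map (Int.castRingHom ℂ)).eval x + (t * x + ∑ i : Fin m, (w i : ℂ) * x ^ (i.val + 2)) := by
    intro x t
    unfold polOf
    rw [Polynomial.map_add, eval_add, Polynomial.map_sum, eval_finsetSum, Fin.sum_univ_succ,
      Fin.sum_univ_succ]
    simp only [Fin.cons_zero, Fin.cons_succ, map_zero, zero_mul, Polynomial.map_zero, eval_zero,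
      zero_add, Polynomial.map_mul, Polynomial.map_C, Polynomial.map_pow, Polynomial.map_X,
      eval_mul, eval_C, eval_pow, eval_X, Fin.val_succ, Fin.val_zero, pow_one]
    simp only [eq_intCast]
  have h1 : T ⊆ (R ×ˢ R).biUnion fun q => T.filter fun t => q.1 ≠ q.2 ∧
      (W.map (Int.castRingHom ℂ)).eval q.1 +
        (t * q.1 + ∑ i : Fin m, (w i : ℂ) * q.1 ^ (i.val + 2)) =
      (W.map (Int.castRingHom ℂ)).eval q.2 +
        (t * q.2 + ∑ i : Fin m, (w i : ℂ) * q.2 ^ (i.val + 2)) := by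
    intro t ht
    obtain ⟨x, hx, y, hy, hxy, he⟩ := (hZ _ (hT t ht)).2
    rw [hev, hev] at he
    rw [Finset.mem_biUnion]
    exact ⟨(x, y), Finset.mem_product.2 ⟨hx, hy⟩, Finset.mem_filter.2 ⟨ht, hxy, he⟩⟩
  have h2 := (Finset.card_le_card h1).trans Finset.card_biUnion_le
  have h3 : ∀ q ∈ R ×ˢ R, (T.filter fun t : ℤ => q.1 ≠ q.2 ∧
      (W.map (Int.castRingHom ℂ)).eval q.1 +
        (t * q.1 + ∑ i : Fin m, (w i : ℂ) * q.1 ^ (i.val + 2)) =
      (W.map (Int.castRingHom ℂ)).eval q.2 +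
        (t * q.2 + ∑ i : Fin m, (w i : ℂ) * q.2 ^ (i.val + 2))).card ≤ 1 := by
    intro q _
    rw [Finset.card_le_one]
    intro t ht t' ht'
    rw [Finset.mem_filter] at ht ht'
    have hne : q.1 - q.2 ≠ 0 := sub_ne_zero.2 ht.2.1
    have h4 : ((t : ℂ) - t') * (q.1 - q.2) = 0 := by
      linear_combination ht.2.2 - ht'.2.2
    have h5 := (mul_eq_zero.1 h4).resolve_right hne
    have h6 : (t : ℂ) = t' := sub_eq_zero.1 h5
    exact_mod_cast h6
  have h4 : T.card ≤ R.card ^ 2 := by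
    refine h2.trans ((Finset.sum_le_sum h3).trans ?_)
    rw [Finset.sum_const, Finset.card_product, smul_eq_mul, mul_one, sq]
  exact_mod_cast h4

theorem asm {r : ℕ} (f : Fin r → ℤ[X]) (hirr : ∀ j, Irreducible ((f j).map (Int.castRingHom ℚ)))
    (hsq : Squarefree ((∏ j, f j).map (Int.castRingHom ℚ))) (D m : ℕ) (hm : m + 2 ≤ D + 1)
    (θ η : ℝ) (hθ : θ + η < ∑ j, ((if (f j).natDegree < 2 * (m + 2) then (f j).natDegree else
      min (f j).natDegree 2 : ℕ) : ℝ)) :
    ∃ c : ℝ, 0 < c ∧ ∃ C : ℝ, 0 < C ∧ ∀ B : ℕ, 2 ≤ B → ∀ W : ℤ[X], W.natDegree ≤ D →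
      (∀ i, |W.coeff i| ≤ (B : ℤ)) → ∀ M : (Fin (m + 1) → ℤ) → ℤ,
      ∀ Z : Finset (Fin (m + 2) → ℤ),
      (∀ z ∈ Z, (∀ i, |z i| ≤ (B : ℤ)) ∧ M (Fin.tail z) ≠ 0 ∧ |M (Fin.tail z)| ≤ (B : ℤ) ∧
        ((∃ j, resultant (f j) (polOf (m + 2) W z) (f j).natDegree D = 0) ∨
        ∃ S : Finset ℕ, ∑ p ∈ S, Real.log (p : ℝ) ≤ η * Real.log B ∧
          logRad (S ∪ (M (Fin.tail z)).natAbs.primeFactors)
            (∏ j, resultant (f j) (polOf (m + 2) W z) (f j).natDegree D) < θ * Real.log B)) →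
      (Z.card : ℝ) ≤ C * (B : ℝ) ^ (((m + 2 : ℕ) : ℝ) - c) := by
  classical
  have hne : ∀ j, f j ≠ 0 := by
    intro j h0
    have := (hirr j).ne_zero
    rw [h0, Polynomial.map_zero] at this
    exact this rfl
  have hk : ∀ j, 1 ≤ (f j).natDegree := by
    intro j
    have h1 := (hirr j).natDegree_pos
    rwa [natDegree_map_eq_of_injective Int.cast_injective] at h1
  set J : Finset (Fin r) := Finset.univ.filter fun j => (f j).natDegree < 2 * (m + 2) with hJ
  choose A hA using fun j => Hs_coeff (f j) D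
  set A' : ℕ := ∑ j, A j + 1 with hA'
  have hAj : ∀ j, A j ≤ A' := fun j =>
    (Finset.single_le_sum (fun i _ => Nat.zero_le (A i)) (Finset.mem_univ j)).trans
      (Nat.le_succ _)
  obtain ⟨c3, hc3, C3, hC3, h3⟩ := us_main2 (fun j => (f j).natDegree) hk A' J θ η (by
    refine hθ.trans_le (le_of_eq ?_)
    refine Finset.sum_congr rfl fun j _ => ?_
    rw [hJ]
    simp only [Finset.mem_filter, Finset.mem_univ, true_and])
  have hbig : ∀ j, ∃ c : ℝ, 0 < c ∧ ∃ C : ℝ, 0 < C ∧ (j ∈ J → ∀ B : ℕ, 2 ≤ B → ∀ W : ℤ[X],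
      W.natDegree ≤ D → (∀ i, |W.coeff i| ≤ (B : ℤ)) → ∀ Z : Finset (Fin (m + 2) → ℤ),
      (∀ z ∈ Z, (∀ i, |z i| ≤ (B : ℤ)) ∧
        resultant (f j) (polOf (m + 2) W z) (f j).natDegree D ≠ 0 ∧
        ∃ p : ℕ, p.Prime ∧ (B : ℝ) ^ ((1 : ℝ) / 2) < p ∧
          (p : ℤ) ^ 2 ∣ resultant (f j) (polOf (m + 2) W z) (f j).natDegree D) →
      (Z.card : ℝ) ≤ C * (B : ℝ) ^ (((m + 2 : ℕ) : ℝ) - c)) := by
    intro j
    by_cases hj : j ∈ J
    · obtain ⟨c, hc, C, hC, h⟩ := big (f j) (hirr j) (hk j) D (m + 2) hm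
        (by rw [hJ, Finset.mem_filter] at hj; exact hj.2) (1 / 2) (by norm_num)
      exact ⟨c, hc, C, hC, fun _ => h⟩
    · exact ⟨1, one_pos, 1, one_pos, fun h => absurd h hj⟩
  choose c2 hc2 C2 hC2 h2 using hbig
  -- the exponent
  obtain ⟨c, hc, hcc3, hcc2, hcc1⟩ : ∃ c : ℝ, 0 < c ∧ c ≤ c3 ∧ (∀ j, c ≤ c2 j) ∧ c ≤ 1 := by
    obtain ⟨c, hc, hcj⟩ : ∃ c : ℝ, 0 < c ∧ ∀ j, c ≤ c2 j := by
      rcases Nat.eq_zero_or_pos r with hr | hr
      · subst hr
        exact ⟨1, one_pos, fun j => j.elim0⟩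
      · have : Nonempty (Fin r) := ⟨⟨0, hr⟩⟩
        obtain ⟨i, hi⟩ := Finite.exists_min c2
        exact ⟨c2 i, hc2 i, hi⟩
    exact ⟨min (min c c3) 1, lt_min (lt_min hc hc3) one_pos,
      (min_le_left _ _).trans (min_le_right _ _),
      fun j => ((min_le_left _ _).trans (min_le_left _ _)).trans (hcj j), min_le_right _ _⟩
  set R : Finset ℂ := ((∏ j, f j).map (Int.castRingHom ℂ)).roots.toFinset with hR
  set K1 : ℝ := 3 ^ (m + 1) * (∑ j, ((f j).natDegree : ℝ)) with hK1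
  set K2 : ℝ := 3 ^ (m + 1) * (R.card : ℝ) ^ 2 with hK2
  set K3 : ℝ := ∑ j, C2 j with hK3
  set K4 : ℝ := 3 ^ (m + 1) * C3 with hK4
  have hK10 : 0 ≤ K1 := by positivity
  have hK20 : 0 ≤ K2 := by positivity
  have hK30 : 0 ≤ K3 := Finset.sum_nonneg fun j _ => (hC2 j).le
  have hK40 : 0 < K4 := by positivity
  refine ⟨c, hc, K1 + K2 + K3 + K4, by positivity, fun B hB W hWd hWc M Z hZ => ?_⟩
  have hB1 : (1 : ℝ) ≤ B := by exact_mod_cast (by omega : 1 ≤ B)
  have hBpos : (0 : ℝ) < B := by linarith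
  have hBz : (1 : ℤ) ≤ B := by exact_mod_cast (by omega : 1 ≤ B)
  have hbox : ∀ z ∈ Z, ∀ i, |z i| ≤ (B : ℤ) := fun z hz => (hZ z hz).1
  have h3B : (2 * (B : ℝ) + 1) ≤ 3 * B := by linarith
  have hpow : (2 * (B : ℝ) + 1) ^ (m + 1) ≤ 3 ^ (m + 1) * (B : ℝ) ^ (m + 1) := by
    rw [← mul_pow]
    exact pow_le_pow_left₀ (by positivity) h3B _
  have hexp1 : (B : ℝ) ^ (m + 1) ≤ (B : ℝ) ^ (((m + 2 : ℕ) : ℝ) - c) := by
    rw [← Real.rpow_natCast]
    refine Real.rpow_le_rpow_of_exponent_le hB1 ?_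
    push_cast
    linarith
  -- the evaluation of the slices
  have hev : ∀ (j : Fin r) (z : Fin (m + 2) → ℤ),
      (Hs (f j) (polOf (m + 2) W (Fin.cons 0 (Fin.tail z))) D).eval (z 0) =
        resultant (f j) (polOf (m + 2) W z) (f j).natDegree D := by
    intro j z
    rw [Hs_eval, ← polOf_cons]
  -- the four parts
  set Z0 := Z.filter fun z => ∃ j, resultant (f j) (polOf (m + 2) W z) (f j).natDegree D = 0
    with hZ0
  set Z1 := Z.filter fun z => ∃ x ∈ R, ∃ y ∈ R, x ≠ y ∧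
      ((polOf (m + 2) W (Fin.cons 0 (Fin.tail z))).map (Int.castRingHom ℂ)).eval x =
        ((polOf (m + 2) W (Fin.cons 0 (Fin.tail z))).map (Int.castRingHom ℂ)).eval y with hZ1
  set Z2 : Fin r → Finset (Fin (m + 2) → ℤ) := fun j => Z.filter fun z => j ∈ J ∧
      resultant (f j) (polOf (m + 2) W z) (f j).natDegree D ≠ 0 ∧
        ∃ p : ℕ, p.Prime ∧ (B : ℝ) ^ ((1 : ℝ) / 2) < p ∧
          (p : ℤ) ^ 2 ∣ resultant (f j) (polOf (m + 2) W z) (f j).natDegree D with hZ2
  set Z3 := ((Z \ Z0) \ Z1) \ (Finset.univ.biUnion Z2) with hZ3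
  have hcov : Z.card ≤ Z0.card + Z1.card + (Finset.univ.biUnion Z2).card + Z3.card := by
    have h4 : Z ⊆ ((Z0 ∪ Z1) ∪ (Finset.univ.biUnion Z2)) ∪ Z3 := by
      intro z hz
      by_cases e0 : z ∈ Z0
      · exact Finset.mem_union_left _ (Finset.mem_union_left _ (Finset.mem_union_left _ e0))
      by_cases e1 : z ∈ Z1
      · exact Finset.mem_union_left _ (Finset.mem_union_left _ (Finset.mem_union_right _ e1))
      by_cases e2 : z ∈ Finset.univ.biUnion Z2
      · exact Finset.mem_union_left _ (Finset.mem_union_right _ e2)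
      refine Finset.mem_union_right _ ?_
      rw [hZ3, Finset.mem_sdiff, Finset.mem_sdiff, Finset.mem_sdiff]
      exact ⟨⟨⟨hz, e0⟩, e1⟩, e2⟩
    refine (Finset.card_le_card h4).trans ((Finset.card_union_le _ _).trans ?_)
    refine Nat.add_le_add_right ((Finset.card_union_le _ _).trans ?_) _
    exact Nat.add_le_add_right (Finset.card_union_le _ _) _
  -- the zeros
  have b0 : (Z0.card : ℝ) ≤ K1 * (B : ℝ) ^ (((m + 2 : ℕ) : ℝ) - c) := by
    have h4 := fibre_count (m + 1) B (∑ j, ((f j).natDegree : ℝ)) Z0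
      (fun z hz => hbox z (Finset.mem_filter.1 hz).1) (fun w T hT => ?_)
    · calc (Z0.card : ℝ) ≤ (2 * B + 1) ^ (m + 1) * (∑ j, ((f j).natDegree : ℝ)) := h4
        _ ≤ (3 ^ (m + 1) * (B : ℝ) ^ (m + 1)) * (∑ j, ((f j).natDegree : ℝ)) :=
            mul_le_mul_of_nonneg_right hpow (by positivity)
        _ = K1 * (B : ℝ) ^ (m + 1) := by rw [hK1]; ring
        _ ≤ _ := mul_le_mul_of_nonneg_left hexp1 hK10
    · have h5 : T ⊆ Finset.univ.biUnion fun j : Fin r =>
          (Hs (f j) (polOf (m + 2) W (Fin.cons 0 w)) D).roots.toFinset := by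
        intro t ht
        obtain ⟨j, hj⟩ := (Finset.mem_filter.1 (hT t ht)).2
        rw [← hev, Fin.tail_cons, Fin.cons_zero] at hj
        rw [Finset.mem_biUnion]
        refine ⟨j, Finset.mem_univ j, ?_⟩
        rw [Multiset.mem_toFinset, mem_roots']
        refine ⟨fun h0 => ?_, hj⟩
        have hw : (polOf (m + 2) W (Fin.cons 0 w)).natDegree ≤ D := polOf_natDegree hm hWd _
        have h6 := Hs_natDegree (f j) _ D (hne j) hw
        rw [h0, natDegree_zero] at h6
        have := hk j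
        omega
      have h6 : T.card ≤ ∑ j, (f j).natDegree := by
        refine (Finset.card_le_card h5).trans (Finset.card_biUnion_le.trans ?_)
        refine Finset.sum_le_sum fun j _ => ?_
        have hw : (polOf (m + 2) W (Fin.cons 0 w)).natDegree ≤ D := polOf_natDegree hm hWd _
        refine (Multiset.toFinset_card_le _).trans ((card_roots' _).trans ?_)
        rw [Hs_natDegree (f j) _ D (hne j) hw]
      exact_mod_cast h6
  -- the bad tails
  have b1 : (Z1.card : ℝ) ≤ K2 * (B : ℝ) ^ (((m + 2 : ℕ) : ℝ) - c) := by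
    set Z1' := Z1.image Fin.tail with hZ1'
    have h4 := tail_bad R m B W Z1' (fun z hz => by
      obtain ⟨y, hy, rfl⟩ := Finset.mem_image.1 hz
      obtain ⟨hy1, hy2⟩ := Finset.mem_filter.1 hy
      exact ⟨fun i => hbox y hy1 _, hy2⟩)
    have h5 : Z1.card ≤ (2 * B + 1) * Z1'.card := by
      refine Finset.card_le_mul_card_image Z1 (2 * B + 1) fun w _ => ?_
      have h6 : ((Z1.filter fun z => Fin.tail z = w).image fun z => z 0).card =
          (Z1.filter fun z => Fin.tail z = w).card := by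
        refine Finset.card_image_of_injOn fun z hz z' hz' h => ?_
        rw [Finset.mem_coe, Finset.mem_filter] at hz hz'
        rw [← Fin.cons_self_tail z, ← Fin.cons_self_tail z', hz.2, hz'.2]
        congr 1
      rw [← h6]
      have h7 : ((Z1.filter fun z => Fin.tail z = w).image fun z => z 0) ⊆
          Finset.Icc (-(B : ℤ)) B := by
        intro t ht
        obtain ⟨z, hz, rfl⟩ := Finset.mem_image.1 ht
        rw [Finset.mem_Icc, ← abs_le]
        exact hbox z (Finset.mem_filter.1 (Finset.mem_filter.1 hz).1).1 0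
      refine (Finset.card_le_card h7).trans (le_of_eq ?_)
      rw [Int.card_Icc]
      omega
    have h6 : (Z1.card : ℝ) ≤ (2 * B + 1) * (Z1'.card : ℝ) := by exact_mod_cast h5
    calc (Z1.card : ℝ) ≤ (2 * B + 1) * (Z1'.card : ℝ) := h6
      _ ≤ (2 * B + 1) * ((2 * B + 1) ^ m * (R.card ^ 2)) :=
          mul_le_mul_of_nonneg_left h4 (by positivity)
      _ = (2 * B + 1) ^ (m + 1) * (R.card ^ 2) := by ring
      _ ≤ (3 ^ (m + 1) * (B : ℝ) ^ (m + 1)) * (R.card ^ 2) :=
          mul_le_mul_of_nonneg_right hpow (by positivity)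
      _ = K2 * (B : ℝ) ^ (m + 1) := by rw [hK2]; ring
      _ ≤ _ := mul_le_mul_of_nonneg_left hexp1 hK20
  -- the large squares
  have b2 : ((Finset.univ.biUnion Z2).card : ℝ) ≤ K3 * (B : ℝ) ^ (((m + 2 : ℕ) : ℝ) - c) := by
    have h4 : ((Finset.univ.biUnion Z2).card : ℝ) ≤ ∑ j, ((Z2 j).card : ℝ) := by
      exact_mod_cast Finset.card_biUnion_le
    refine h4.trans ?_
    rw [hK3, Finset.sum_mul]
    refine Finset.sum_le_sum fun j _ => ?_
    by_cases hj : j ∈ J
    · refine (h2 j hj B hB W hWd hWc (Z2 j) (fun z hz => ?_)).trans ?_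
      · obtain ⟨e1, -, e2⟩ := Finset.mem_filter.1 hz
        exact ⟨hbox z e1, e2⟩
      · refine mul_le_mul_of_nonneg_left ?_ (hC2 j).le
        refine Real.rpow_le_rpow_of_exponent_le hB1 ?_
        linarith [hcc2 j]
    · have h5 : Z2 j = ∅ := by
        rw [Finset.eq_empty_iff_forall_notMem]
        intro z hz
        exact hj (Finset.mem_filter.1 hz).2.1
      rw [h5, Finset.card_empty, Nat.cast_zero]
      exact mul_nonneg (hC2 j).le (by positivity)
  -- the slices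
  have b3 : (Z3.card : ℝ) ≤ K4 * (B : ℝ) ^ (((m + 2 : ℕ) : ℝ) - c) := by
    have hsub3 : Z3 ⊆ Z := fun z hz => by
      rw [hZ3, Finset.mem_sdiff, Finset.mem_sdiff, Finset.mem_sdiff] at hz
      exact hz.1.1.1
    have h4 := fibre_count (m + 1) B (C3 * (B : ℝ) ^ (1 - c3)) Z3
      (fun z hz => hbox z (hsub3 hz)) (fun w T hT => ?_)
    · calc (Z3.card : ℝ) ≤ (2 * B + 1) ^ (m + 1) * (C3 * (B : ℝ) ^ (1 - c3)) := h4
        _ ≤ (3 ^ (m + 1) * (B : ℝ) ^ (m + 1)) * (C3 * (B : ℝ) ^ (1 - c3)) :=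
            mul_le_mul_of_nonneg_right hpow (by positivity)
        _ = K4 * ((B : ℝ) ^ (((m + 1 : ℕ)) : ℝ) * (B : ℝ) ^ (1 - c3)) := by
            rw [hK4, Real.rpow_natCast]; ring
        _ = K4 * (B : ℝ) ^ (((m + 2 : ℕ) : ℝ) - c3) := by
            rw [← Real.rpow_add hBpos]
            congr 2
            push_cast
            ring
        _ ≤ _ := by
            refine mul_le_mul_of_nonneg_left ?_ hK40.le
            refine Real.rpow_le_rpow_of_exponent_le hB1 ?_
            linarith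
    · rcases T.eq_empty_or_nonempty with hT0 | ⟨t0, ht0⟩
      · rw [hT0, Finset.card_empty, Nat.cast_zero]
        positivity
      have hmem0 := hT t0 ht0
      have hz0 := hZ _ (hsub3 hmem0)
      rw [Fin.tail_cons] at hz0
      have hwB : ∀ i, |w i| ≤ (B : ℤ) := by
        intro i
        have := hz0.1 i.succ
        rwa [Fin.cons_succ] at this
      have hWw : (polOf (m + 2) W (Fin.cons 0 w)).natDegree ≤ D := polOf_natDegree hm hWd _
      have hcw : ∀ i, |(Fin.cons 0 w : Fin (m + 2) → ℤ) i| ≤ (B : ℤ) := by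
        intro i
        refine Fin.cases ?_ (fun i => ?_) i
        · rw [Fin.cons_zero, abs_zero]; positivity
        · rw [Fin.cons_succ]; exact hwB _
      have hWwc := fun i => polOf_coeff_le hWc hcw i
      refine h3 B hB (M w, fun j => Hs (f j) (polOf (m + 2) W (Fin.cons 0 w)) D) ⟨⟨?_, ?_, ?_⟩,
        hz0.2.1, hz0.2.2.1.trans ?_⟩ T ?_
      · exact fun j => Hs_natDegree (f j) _ D (hne j) hWw
      · refine Hs_squarefree f hsq _ D hWw fun x hx y hy hxy => ?_
        by_contra hne'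
        rw [hZ3, Finset.mem_sdiff, Finset.mem_sdiff] at hmem0
        refine hmem0.1.2 ?_
        rw [hZ1, Finset.mem_filter]
        refine ⟨hsub3 (hT t0 ht0), x, Multiset.mem_toFinset.2 hx, y, Multiset.mem_toFinset.2 hy,
          hne', ?_⟩
        rw [Fin.tail_cons]
        exact hxy
      · intro j i
        exact (hA j B hB _ hWw hWwc i).trans (pow_le_pow_right₀ hBz (hAj j))
      · calc (B : ℤ) = (B : ℤ) ^ 1 := (pow_one _).symm
          _ ≤ _ := pow_le_pow_right₀ hBz (by omega)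
      · intro t ht
        have hmem := hT t ht
        have hz := hZ _ (hsub3 hmem)
        have hzt : |t| ≤ (B : ℤ) := by
          have := hz.1 0
          rwa [Fin.cons_zero] at this
        rw [hZ3, Finset.mem_sdiff, Finset.mem_sdiff, Finset.mem_sdiff] at hmem
        have hn0 : ∀ j, resultant (f j) (polOf (m + 2) W (Fin.cons t w)) (f j).natDegree D ≠ 0 := by
          intro j h0
          exact hmem.1.1.2 (Finset.mem_filter.2 ⟨hmem.1.1.1, j, h0⟩)
        have hevt : ∀ j, (Hs (f j) (polOf (m + 2) W (Fin.cons 0 w)) D).eval t =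
            resultant (f j) (polOf (m + 2) W (Fin.cons t w)) (f j).natDegree D := by
          intro j
          have := hev j (Fin.cons t w)
          rwa [Fin.tail_cons, Fin.cons_zero] at this
        refine ⟨hzt, ?_, ?_⟩
        · intro j hj p hp hpB hpd
          rw [hevt] at hpd
          refine hmem.2 (Finset.mem_biUnion.2 ⟨j, Finset.mem_univ j, ?_⟩)
          rw [hZ2]
          exact Finset.mem_filter.2 ⟨hmem.1.1.1, hj, hn0 j, p, hp, hpB, hpd⟩
        · right
          rcases hz.2.2.2 with ⟨j, hj⟩ | ⟨S, hS, hlt⟩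
          · exact absurd hj (hn0 j)
          · rw [Fin.tail_cons] at hlt
            refine ⟨S, hS, ?_⟩
            simp only
            rw [Finset.prod_congr rfl fun j _ => hevt j]
            exact hlt
  have h4 : (Z.card : ℝ) ≤ Z0.card + Z1.card + (Finset.univ.biUnion Z2).card + Z3.card := by
    exact_mod_cast hcov
  calc (Z.card : ℝ) ≤ Z0.card + Z1.card + (Finset.univ.biUnion Z2).card + Z3.card := h4
    _ ≤ (K1 + K2 + K3 + K4) * (B : ℝ) ^ (((m + 2 : ℕ) : ℝ) - c) := by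
        rw [add_mul, add_mul, add_mul]
        linarith

end Run7.h742.DG
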