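import Mathlib

/-!
# Packing (helper742)
-/

set_option autoImplicit false

namespace Run7.h742.DG

theorem packing (e n : ℕ) (hn : n ≤ e) (B R : ℕ) (hR : 1 ≤ R) (Z : Finset (Fin e → ℤ))
    (hZ : ∀ z ∈ Z, ∀ i, |z i| ≤ (B : ℤ))
    (hsep : ∀ z ∈ Z, ∀ z' ∈ Z, (∀ i : Fin e, n ≤ i.val → z i = z' i) →
      (∀ i, |z i - z' i| < (R : ℤ)) → z = z') :
    Z.card ≤ (2 * B / R + 1) ^ n * (2 * B + 1) ^ (e - n) := by
  classical
  set φ : (Fin e → ℤ) → (Fin e → ℕ) := fun z i =>
    if i.val < n then ((z i + B) / R).toNat else (z i + B).toNat with hφ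
  have hR' : (0 : ℤ) < R := by exact_mod_cast hR
  have hb : ∀ z ∈ Z, ∀ i, 0 ≤ z i + B ∧ z i + B ≤ 2 * B := by
    intro z hz i
    have h1 := abs_le.1 (hZ z hz i)
    constructor <;> linarith [h1.1, h1.2]
  have hinj : Set.InjOn φ (Z : Set (Fin e → ℤ)) := by
    intro z hz z' hz' h
    refine hsep z hz z' hz' (fun i hi => ?_) (fun i => ?_)
    · have h1 := congrFun h i
      simp only [hφ] at h1
      rw [if_neg (by omega), if_neg (by omega)] at h1
      have h2 := (hb z hz i).1
      have h3 := (hb z' hz' i).1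
      omega
    · have h1 := congrFun h i
      simp only [hφ] at h1
      have h2 := (hb z hz i).1
      have h3 := (hb z' hz' i).1
      by_cases hi : i.val < n
      · rw [if_pos hi, if_pos hi] at h1
        have h4 : 0 ≤ (z i + B) / R := Int.ediv_nonneg h2 hR'.le
        have h5 : 0 ≤ (z' i + B) / R := Int.ediv_nonneg h3 hR'.le
        have h6 : (z i + B) / R = (z' i + B) / R := by omega
        have h7 := Int.emod_add_mul_ediv (z i + B) R
        have h8 := Int.emod_add_mul_ediv (z' i + B) R
        have h9 := Int.emod_nonneg (z i + B) hR'.ne'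
        have h10 := Int.emod_nonneg (z' i + B) hR'.ne'
        have h11 := Int.emod_lt_of_pos (z i + B) hR'
        have h12 := Int.emod_lt_of_pos (z' i + B) hR'
        rw [h6] at h7
        rw [abs_lt]
        constructor <;> linarith
      · rw [if_neg hi, if_neg hi] at h1
        have h6 : z i = z' i := by omega
        rw [h6, sub_self, abs_zero]
        exact hR'
  have hmaps : Z.image φ ⊆ Fintype.piFinset (fun i : Fin e =>
      Finset.range (if i.val < n then 2 * B / R + 1 else 2 * B + 1)) := by
    intro w hw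
    obtain ⟨z, hz, rfl⟩ := Finset.mem_image.1 hw
    rw [Fintype.mem_piFinset]
    intro i
    rw [Finset.mem_range]
    simp only [hφ]
    obtain ⟨h2, h3⟩ := hb z hz i
    split_ifs with hi
    · have h4 : (z i + B) / R ≤ (2 * B : ℤ) / R := Int.ediv_le_ediv hR' h3
      have h5 : ((2 * B / R : ℕ) : ℤ) = (2 * B : ℤ) / R := by push_cast; rfl
      rw [← h5] at h4
      exact Nat.lt_succ_of_le (Int.toNat_le.2 h4)
    · omega
  have h1 := Finset.card_le_card hmaps
  rw [Finset.card_image_of_injOn hinj, Fintype.card_piFinset] at h1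
  simp only [Finset.card_range] at h1
  refine h1.trans (le_of_eq ?_)
  rw [Finset.prod_ite, Finset.prod_const, Finset.prod_const]
  have h2 : (Finset.univ.filter fun i : Fin e => i.val < n).card = n := by
    rw [Fin.card_filter_val_lt]; omega
  have h3 : (Finset.univ.filter fun i : Fin e => ¬ i.val < n).card = e - n := by
    have h4 := Finset.card_filter_add_card_filter_not (s := (Finset.univ : Finset (Fin e)))
      (fun i : Fin e => i.val < n)
    rw [h2, Finset.card_univ, Fintype.card_fin] at h4
    omega
  rw [h2, h3]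

end Run7.h742.DG
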