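import Pool.Agent.Run7.h742.DG.Gam
import Pool.Agent.Run7.h742.DG.Pack

/-!
# Large squares dividing resultants (helper742)
-/

set_option autoImplicit false

namespace Run7.h742.DG

open Polynomial NumberField

/-- the polynomial with variable lower coefficients -/
noncomputable def polOf (e : ℕ) (W : ℤ[X]) (z : Fin e → ℤ) : ℤ[X] :=
  W + ∑ i : Fin e, C (z i) * X ^ (i : ℕ)

theorem low_coeff (e : ℕ) (z : Fin e → ℤ) (j : ℕ) :
    (∑ i : Fin e, C (z i) * X ^ (i : ℕ) : ℤ[X]).coeff j = if h : j < e then z ⟨j, h⟩ else 0 := by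
  rw [finsetSum_coeff]
  simp only [coeff_C_mul, coeff_X_pow]
  split_ifs with h
  · rw [Finset.sum_eq_single ⟨j, h⟩]
    · simp
    · intro b _ hb
      rw [if_neg, mul_zero]
      intro hj
      exact hb (Fin.ext hj.symm)
    · intro hj
      exact absurd (Finset.mem_univ _) hj
  · refine Finset.sum_eq_zero fun b _ => ?_
    rw [if_neg, mul_zero]
    have := b.isLt
    omega

theorem polOf_natDegree {e D : ℕ} (he : e ≤ D + 1) {W : ℤ[X]} (hW : W.natDegree ≤ D)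
    (z : Fin e → ℤ) : (polOf e W z).natDegree ≤ D := by
  unfold polOf
  refine (natDegree_add_le _ _).trans (max_le hW ?_)
  rw [natDegree_le_iff_coeff_eq_zero]
  intro N hN
  rw [low_coeff, dif_neg (by omega)]

theorem polOf_coeff_le {e B : ℕ} {W : ℤ[X]} (hW : ∀ i, |W.coeff i| ≤ (B : ℤ)) {z : Fin e → ℤ}
    (hz : ∀ i, |z i| ≤ (B : ℤ)) (i : ℕ) : |(polOf e W z).coeff i| ≤ 2 * (B : ℤ) := by
  unfold polOf
  rw [coeff_add, low_coeff]
  refine (abs_add_le _ _).trans ?_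
  have h1 := hW i
  split_ifs with h
  · have h2 := hz ⟨i, h⟩
    omega
  · rw [abs_zero]
    omega

theorem polOf_sub (e : ℕ) (W : ℤ[X]) (z z' : Fin e → ℤ) :
    polOf e W z - polOf e W z' = ∑ i : Fin e, C (z i - z' i) * X ^ (i : ℕ) := by
  unfold polOf
  rw [add_sub_add_left_eq_sub, ← Finset.sum_sub_distrib]
  refine Finset.sum_congr rfl fun i _ => ?_
  rw [C_sub, sub_mul]

theorem sep {K : Type} [Field K] [NumberField K] (x : K) (f : ℤ[X])
    (hf : Irreducible (f.map (Int.castRingHom ℚ))) (hx : aeval x f = 0)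
    (D : ℕ) (C0 : ℝ)
    (hC0 : ∀ R : ℝ, 0 ≤ R → ∀ P : ℤ[X], (∀ i, (|P.coeff i| : ℝ) ≤ R) →
      (|Algebra.norm ℤ (gam x f hx D P)| : ℝ) ≤ (C0 * R) ^ (Module.finrank ℚ K))
    (p : ℕ) (I : Ideal (𝓞 K)) (hI : I ∈ BB K p) (e n : ℕ) (hnk : n ≤ f.natDegree)
    (hnD : n ≤ D + 1) (W : ℤ[X]) (z z' : Fin e → ℤ) (hz : gam x f hx D (polOf e W z) ∈ I)
    (hz' : gam x f hx D (polOf e W z') ∈ I) (heq : ∀ i : Fin e, n ≤ i.val → z i = z' i)
    (R : ℝ) (hR : 0 ≤ R) (hlt : ∀ i, (|z i - z' i| : ℝ) ≤ R)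
    (hsmall : (C0 * R) ^ (Module.finrank ℚ K) < (p : ℝ) ^ 2) : z = z' := by
  by_contra hne
  set Q := polOf e W z - polOf e W z' with hQ
  have hQc : ∀ j, Q.coeff j = if h : j < e then z ⟨j, h⟩ - z' ⟨j, h⟩ else 0 := by
    intro j
    rw [hQ, polOf_sub, low_coeff e (fun i => z i - z' i) j]
  have hQ0 : Q ≠ 0 := by
    intro h0
    apply hne
    funext i
    have h1 := hQc i.val
    rw [h0, coeff_zero, dif_pos i.isLt] at h1
    have h2 : z i - z' i = 0 := h1.symm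
    linarith
  have hQd : Q.natDegree < n := by
    by_contra hcon
    have h1 := hQc Q.natDegree
    have h2 : Q.coeff Q.natDegree ≠ 0 := leadingCoeff_ne_zero.2 hQ0
    apply h2
    rw [h1]
    split_ifs with h
    · rw [heq ⟨Q.natDegree, h⟩ (by simpa using hcon), sub_self]
    · rfl
  have hmem : gam x f hx D Q ∈ I := by
    rw [hQ, gam_sub]
    exact I.sub_mem hz hz'
  have hg0 : Algebra.norm ℤ (gam x f hx D Q) ≠ 0 := by
    rw [Ne, Algebra.norm_eq_zero_iff]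
    intro h0
    have h1 := coe_gam x f hx D Q (by omega)
    rw [h0] at h1
    have h2 : (f.leadingCoeff : K) ^ D * aeval x Q ≠ 0 := by
      refine mul_ne_zero (pow_ne_zero _ ?_) (aeval_ne_zero x f hf hx Q hQ0 (by omega))
      have hf0 : f ≠ 0 := by
        rintro rfl
        exact hf.ne_zero (Polynomial.map_zero _)
      exact_mod_cast leadingCoeff_ne_zero.2 hf0
    apply h2
    rw [← h1]
    simp
  have h1 : (p : ℤ) ^ 2 ∣ Algebra.norm ℤ (gam x f hx D Q) := by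
    have h2 := dvd_of_mem_BB K hI
    have h3 := Ideal.absNorm_dvd_norm_of_mem hmem
    refine dvd_trans ?_ h3
    exact_mod_cast h2
  have h2 : (p : ℤ) ^ 2 ≤ |Algebra.norm ℤ (gam x f hx D Q)| :=
    Int.le_of_dvd (abs_pos.2 hg0) ((dvd_abs _ _).2 h1)
  have h3 : ((p : ℝ)) ^ 2 ≤ |(Algebra.norm ℤ (gam x f hx D Q) : ℝ)| := by
    exact_mod_cast h2
  have h4 := hC0 R hR Q (fun i => by
    rw [hQc i]
    split_ifs with h
    · have := hlt ⟨i, h⟩
      push_cast
      exact this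
    · simpa using hR)
  linarith

theorem pow_add_one_le (u : ℝ) (hu : 0 ≤ u) (n : ℕ) : (u + 1) ^ n ≤ 2 ^ n * (u ^ n + 1) := by
  rcases le_total u 1 with h | h
  · have h1 : (u + 1) ^ n ≤ 2 ^ n := pow_le_pow_left₀ (by linarith) (by linarith) n
    have h2 : (0 : ℝ) ≤ 2 ^ n * u ^ n := by positivity
    nlinarith
  · have h1 : (u + 1) ^ n ≤ (2 * u) ^ n := pow_le_pow_left₀ (by linarith) (by linarith) n
    rw [mul_pow] at h1
    have h2 : (0 : ℝ) ≤ 2 ^ n := by positivity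
    nlinarith

end Run7.h742.DG
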