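import Pool.Agent.Run7.h742.DG.Big

/-!
# Large squares dividing resultants: the count (helper742)
-/

set_option autoImplicit false

namespace Run7.h742.DG

open Polynomial NumberField

theorem count_pI {K : Type} [Field K] [NumberField K] (x : K) (f : ℤ[X])
    (hf : Irreducible (f.map (Int.castRingHom ℚ))) (hx : aeval x f = 0)
    (hd : f.natDegree = Module.finrank ℚ K)
    (D : ℕ) (C0 : ℝ) (hC01 : 1 ≤ C0)
    (hC0 : ∀ R : ℝ, 0 ≤ R → ∀ P : ℤ[X], (∀ i, (|P.coeff i| : ℝ) ≤ R) →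
      (|Algebra.norm ℤ (gam x f hx D P)| : ℝ) ≤ (C0 * R) ^ (Module.finrank ℚ K))
    (p : ℕ) (hp : p.Prime) (I : Ideal (𝓞 K)) (hI : I ∈ BB K p) (e n : ℕ) (hne : n ≤ e)
    (hnk : n ≤ f.natDegree) (hnD : n ≤ D + 1) (W : ℤ[X]) (B : ℕ) (Z : Finset (Fin e → ℤ))
    (hZ : ∀ z ∈ Z, (∀ i, |z i| ≤ (B : ℤ)) ∧ gam x f hx D (polOf e W z) ∈ I) :
    (Z.card : ℝ) ≤ 2 ^ n * ((2 * C0 * B) ^ n * (p : ℝ) ^ (-(2 * n / f.natDegree : ℝ)) + 1) *
      (2 * B + 1) ^ (e - n) := by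
  set k := f.natDegree with hk
  have hk1 : 1 ≤ k := by rw [hd]; exact Module.finrank_pos
  have hk0 : (0 : ℝ) < k := by exact_mod_cast hk1
  have hp0 : (0 : ℝ) < p := by exact_mod_cast hp.pos
  set ξ : ℝ := (p : ℝ) ^ (2 / k : ℝ) with hξ
  have hξ0 : 0 < ξ := Real.rpow_pos_of_pos hp0 _
  have hC00 : 0 < C0 := by linarith
  set R : ℕ := ⌈ξ / C0⌉₊ with hR
  have hRpos : 0 < ξ / C0 := by positivity
  have hR1 : 1 ≤ R := Nat.one_le_iff_ne_zero.2 (Nat.ceil_pos.2 hRpos).ne'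
  have hRge : ξ / C0 ≤ R := Nat.le_ceil _
  have hRlt : (R : ℝ) < ξ / C0 + 1 := Nat.ceil_lt_add_one hRpos.le
  have h1 := packing e n hne B R hR1 Z (fun z hz => (hZ z hz).1) (by
    intro z hz z' hz' heq hlt
    refine sep x f hf hx D C0 hC0 p I hI e n hnk hnD W z z' (hZ z hz).2 (hZ z' hz').2 heq
      ((R : ℝ) - 1) ?_ (fun i => ?_) ?_
    · have : (1 : ℝ) ≤ R := by exact_mod_cast hR1
      linarith
    · have h2 := hlt i
      have h3 : |z i - z' i| ≤ (R : ℤ) - 1 := by omega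
      have h4 : ((|z i - z' i| : ℤ) : ℝ) ≤ (((R : ℤ) - 1 : ℤ) : ℝ) := by exact_mod_cast h3
      push_cast at h4
      exact h4
    · rw [← hd]
      have h2 : C0 * ((R : ℝ) - 1) < ξ := by
        have h3 : (R : ℝ) - 1 < ξ / C0 := by linarith
        calc C0 * ((R : ℝ) - 1) < C0 * (ξ / C0) := mul_lt_mul_of_pos_left h3 hC00
          _ = ξ := by field_simp
      have h4 : 0 ≤ C0 * ((R : ℝ) - 1) := by
        have : (1 : ℝ) ≤ R := by exact_mod_cast hR1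
        exact mul_nonneg hC00.le (by linarith)
      have h5 : ξ ^ k = (p : ℝ) ^ 2 := by
        rw [hξ, ← Real.rpow_natCast, ← Real.rpow_mul hp0.le, div_mul_cancel₀ _ hk0.ne']
        norm_num
      rw [← h5]
      exact pow_lt_pow_left₀ h2 h4 (by omega))
  have h2 : (Z.card : ℝ) ≤ (((2 * B / R : ℕ) : ℝ) + 1) ^ n * (2 * B + 1) ^ (e - n) := by
    exact_mod_cast h1
  refine h2.trans (mul_le_mul_of_nonneg_right ?_ (by positivity))
  have h3 : ((2 * B / R : ℕ) : ℝ) ≤ 2 * C0 * B * ξ⁻¹ := by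
    refine Nat.cast_div_le.trans ?_
    have hRpos' : (0 : ℝ) < R := by exact_mod_cast hR1
    rw [div_le_iff₀ hRpos']
    have h4 : 2 * C0 * B * ξ⁻¹ * (ξ / C0) = 2 * B := by field_simp
    push_cast
    calc (2 : ℝ) * B = 2 * C0 * B * ξ⁻¹ * (ξ / C0) := h4.symm
      _ ≤ 2 * C0 * B * ξ⁻¹ * R := mul_le_mul_of_nonneg_left hRge (by positivity)
  have h5 : (0 : ℝ) ≤ 2 * C0 * B * ξ⁻¹ := by positivity
  calc (((2 * B / R : ℕ) : ℝ) + 1) ^ n ≤ (2 * C0 * B * ξ⁻¹ + 1) ^ n :=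
        pow_le_pow_left₀ (by positivity) (by linarith) n
    _ ≤ 2 ^ n * ((2 * C0 * B * ξ⁻¹) ^ n + 1) := pow_add_one_le _ h5 n
    _ = _ := by
        rw [mul_pow (2 * C0 * (B : ℝ))]
        have h6 : (ξ⁻¹) ^ n = (p : ℝ) ^ (-(2 * n / k : ℝ)) := by
          rw [hξ, ← Real.rpow_neg hp0.le, ← Real.rpow_natCast, ← Real.rpow_mul hp0.le]
          congr 1
          ring
        rw [h6]

/-- **Large squares.** -/
theorem big (f : ℤ[X]) (hf : Irreducible (f.map (Int.castRingHom ℚ))) (hk1 : 1 ≤ f.natDegree)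
    (D e : ℕ) (he : e ≤ D + 1) (hke : f.natDegree < 2 * e) (δ : ℝ) (hδ : 0 < δ) :
    ∃ c : ℝ, 0 < c ∧ ∃ C : ℝ, 0 < C ∧ ∀ B : ℕ, 2 ≤ B → ∀ W : ℤ[X], W.natDegree ≤ D →
      (∀ i, |W.coeff i| ≤ (B : ℤ)) → ∀ Z : Finset (Fin e → ℤ),
      (∀ z ∈ Z, (∀ i, |z i| ≤ (B : ℤ)) ∧ resultant f (polOf e W z) f.natDegree D ≠ 0 ∧
        ∃ p : ℕ, p.Prime ∧ (B : ℝ) ^ δ < p ∧
          (p : ℤ) ^ 2 ∣ resultant f (polOf e W z) f.natDegree D) →
      (Z.card : ℝ) ≤ C * (B : ℝ) ^ ((e : ℝ) - c) := by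
  classical
  obtain ⟨K, _, _, x, hx, hd⟩ := exists_field f hf
  obtain ⟨C0, hC01, hC0⟩ := norm_gam_le x f hx D
  set k := f.natDegree with hk
  set n := min e k with hn
  have hne : n ≤ e := min_le_left _ _
  have hnk : n ≤ k := min_le_right _ _
  have hnD : n ≤ D + 1 := hne.trans he
  have hk2n : k < 2 * n := by
    rcases min_choice e k with h | h <;> rw [hn, h] <;> omega
  have hk0 : (0 : ℝ) < k := by exact_mod_cast hk1
  set s : ℝ := 2 * n / k with hs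
  have hs1 : 1 < s := by
    rw [hs, lt_div_iff₀ hk0, one_mul]
    exact_mod_cast hk2n
  set τ : ℝ := (s - 1) / 2 with hτ
  have hτ0 : 0 < τ := by rw [hτ]; linarith
  have hsum : Summable fun m : ℕ => (m : ℝ) ^ (-(1 + τ)) := by
    rw [Real.summable_nat_rpow]
    linarith
  set T : ℝ := ∑' m : ℕ, (m : ℝ) ^ (-(1 + τ)) with hT
  have hT0 : 0 ≤ T := tsum_nonneg fun m => by positivity
  set c : ℝ := min (δ * τ) ((n : ℝ) - k / 2) with hc
  have hc0 : 0 < c := by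
    refine lt_min (mul_pos hδ hτ0) ?_
    have : (k : ℝ) < 2 * n := by exact_mod_cast hk2n
    linarith
  set E0 : ℝ := (k : ℝ) + k ^ 2 with hE0
  set C : ℝ := E0 * 2 ^ n * 3 ^ (e - n) * ((2 * C0) ^ n * T + (2 * C0) ^ ((k : ℝ) / 2) + 1) with hC
  have hC00 : 0 < C0 := by linarith
  have hCpos : 0 < C := by
    rw [hC, hE0]
    have : (0 : ℝ) < (2 * C0) ^ ((k : ℝ) / 2) := by positivity
    positivity
  refine ⟨c, hc0, C, hCpos, fun B hB W hWd hWc Z hZ => ?_⟩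
  have hB1 : (1 : ℝ) ≤ B := by exact_mod_cast (by omega : 1 ≤ B)
  have hBpos : (0 : ℝ) < B := by linarith
  -- the primes
  set Y : ℝ := (2 * C0 * B) ^ ((k : ℝ) / 2) with hY
  have hY0 : 0 ≤ Y := by positivity
  set PP : Finset ℕ := (Finset.Icc 1 ⌊Y⌋₊).filter fun p => p.Prime ∧ (B : ℝ) ^ δ < p with hPP
  have hcov : Z ⊆ PP.biUnion fun p => (BB K p).biUnion fun I =>
      Z.filter fun z => gam x f hx D (polOf e W z) ∈ I := by
    intro z hz
    obtain ⟨hzB, hr0, p, hp, hpB, hpd⟩ := hZ z hz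
    have hdeg := polOf_natDegree he hWd z
    have hng := norm_gam x f hf hx hd D (polOf e W z) hdeg
    have hf0 : f ≠ 0 := by
      rintro rfl
      exact hf.ne_zero (Polynomial.map_zero _)
    have hlc : f.leadingCoeff ≠ 0 := leadingCoeff_ne_zero.2 hf0
    have hdvd : (p : ℤ) ^ 2 ∣ Algebra.norm ℤ (gam x f hx D (polOf e W z)) := by
      rw [hng]
      exact Dvd.dvd.mul_left hpd _
    obtain ⟨I, hI, hmem⟩ := exists_BB K hp _ hdvd
    have hle : (p : ℝ) ^ 2 ≤ (2 * C0 * B) ^ k := by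
      have h1 : (p : ℤ) ^ 2 ≤ |Algebra.norm ℤ (gam x f hx D (polOf e W z))| := by
        refine Int.le_of_dvd (abs_pos.2 ?_) ((dvd_abs _ _).2 hdvd)
        rw [hng]
        exact mul_ne_zero (pow_ne_zero _ hlc) hr0
      have h2 : (p : ℝ) ^ 2 ≤ |(Algebra.norm ℤ (gam x f hx D (polOf e W z)) : ℝ)| := by
        exact_mod_cast h1
      refine h2.trans ((hC0 (2 * B) (by positivity) _ (fun i => ?_)).trans (le_of_eq ?_))
      · exact_mod_cast polOf_coeff_le hWc hzB i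
      · rw [← hd]
        ring
    have hpY : (p : ℝ) ≤ Y := by
      have h1 : (p : ℝ) = ((p : ℝ) ^ 2) ^ ((1 : ℝ) / 2) := by
        rw [← Real.rpow_natCast, ← Real.rpow_mul (Nat.cast_nonneg p)]
        norm_num
      rw [h1, hY]
      have h2 : (2 * C0 * (B : ℝ)) ^ ((k : ℝ) / 2) = ((2 * C0 * B) ^ k) ^ ((1 : ℝ) / 2) := by
        rw [← Real.rpow_natCast (2 * C0 * (B : ℝ)) k, ← Real.rpow_mul (by positivity)]
        congr 1
        ring
      rw [h2]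
      exact Real.rpow_le_rpow (by positivity) hle (by norm_num)
    rw [Finset.mem_biUnion]
    refine ⟨p, ?_, ?_⟩
    · rw [hPP, Finset.mem_filter, Finset.mem_Icc]
      exact ⟨⟨hp.one_lt.le, Nat.le_floor hpY⟩, hp, hpB⟩
    · rw [Finset.mem_biUnion]
      exact ⟨I, hI, Finset.mem_filter.2 ⟨hz, hmem⟩⟩
  have hinner : ∀ p ∈ PP, (((BB K p).biUnion fun I =>
      Z.filter fun z => gam x f hx D (polOf e W z) ∈ I).card : ℝ) ≤
      E0 * (2 ^ n * ((2 * C0 * B) ^ n * (p : ℝ) ^ (-s) + 1) * (2 * B + 1) ^ (e - n)) := by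
    intro p hpP
    rw [hPP, Finset.mem_filter] at hpP
    have hp := hpP.2.1
    have h1 : (((BB K p).biUnion fun I =>
        Z.filter fun z => gam x f hx D (polOf e W z) ∈ I).card : ℝ) ≤
        ∑ I ∈ BB K p, ((Z.filter fun z => gam x f hx D (polOf e W z) ∈ I).card : ℝ) := by
      exact_mod_cast Finset.card_biUnion_le
    refine h1.trans ?_
    have h2 : ∀ I ∈ BB K p, ((Z.filter fun z => gam x f hx D (polOf e W z) ∈ I).card : ℝ) ≤
        2 ^ n * ((2 * C0 * B) ^ n * (p : ℝ) ^ (-s) + 1) * (2 * B + 1) ^ (e - n) := by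
      intro I hI
      refine count_pI x f hf hx hd D C0 hC01 hC0 p hp I hI e n hne hnk hnD W B _ (fun z hz => ?_)
      rw [Finset.mem_filter] at hz
      exact ⟨(hZ z hz.1).1, hz.2⟩
    refine (Finset.sum_le_sum h2).trans ?_
    rw [Finset.sum_const, nsmul_eq_mul]
    refine mul_le_mul_of_nonneg_right ?_ (by positivity)
    have h3 := card_BB K hp
    rw [← hd] at h3
    rw [hE0]
    exact_mod_cast h3
  have h1 : (Z.card : ℝ) ≤ ∑ p ∈ PP, E0 *
      (2 ^ n * ((2 * C0 * B) ^ n * (p : ℝ) ^ (-s) + 1) * (2 * B + 1) ^ (e - n)) := by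
    have h2 : (Z.card : ℝ) ≤ ∑ p ∈ PP, (((BB K p).biUnion fun I =>
        Z.filter fun z => gam x f hx D (polOf e W z) ∈ I).card : ℝ) := by
      exact_mod_cast (Finset.card_le_card hcov).trans Finset.card_biUnion_le
    exact h2.trans (Finset.sum_le_sum hinner)
  -- the two sums over the primes
  have hS1 : ∑ p ∈ PP, (p : ℝ) ^ (-s) ≤ (B : ℝ) ^ (-(δ * τ)) * T := by
    have h2 : ∀ p ∈ PP, (p : ℝ) ^ (-s) ≤ (B : ℝ) ^ (-(δ * τ)) * (p : ℝ) ^ (-(1 + τ)) := by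
      intro p hpP
      rw [hPP, Finset.mem_filter] at hpP
      have hp := hpP.2.1
      have hp0 : (0 : ℝ) < p := by exact_mod_cast hp.pos
      have h3 : (p : ℝ) ^ (-s) = (p : ℝ) ^ (-τ) * (p : ℝ) ^ (-(1 + τ)) := by
        rw [← Real.rpow_add hp0]
        congr 1
        rw [hτ]
        ring
      rw [h3]
      refine mul_le_mul_of_nonneg_right ?_ (by positivity)
      have h4 : (B : ℝ) ^ (-(δ * τ)) = ((B : ℝ) ^ δ) ^ (-τ) := by
        rw [← Real.rpow_mul hBpos.le]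
        congr 1
        ring
      rw [h4]
      exact Real.rpow_le_rpow_of_nonpos (by positivity) hpP.2.2.le (by linarith)
    refine (Finset.sum_le_sum h2).trans ?_
    rw [← Finset.mul_sum]
    refine mul_le_mul_of_nonneg_left ?_ (by positivity)
    exact hsum.sum_le_tsum PP (fun m _ => by positivity)
  have hS2 : ∑ _p ∈ PP, (1 : ℝ) ≤ Y := by
    rw [Finset.sum_const, nsmul_eq_mul, mul_one]
    have h2 : PP.card ≤ ⌊Y⌋₊ := by
      refine (Finset.card_filter_le _ _).trans ?_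
      rw [Nat.card_Icc]
      omega
    have h3 : (PP.card : ℝ) ≤ ⌊Y⌋₊ := by exact_mod_cast h2
    exact h3.trans (Nat.floor_le hY0)
  have h2 : ∑ p ∈ PP, E0 *
      (2 ^ n * ((2 * C0 * B) ^ n * (p : ℝ) ^ (-s) + 1) * (2 * B + 1) ^ (e - n)) =
      E0 * 2 ^ n * (2 * B + 1) ^ (e - n) *
        ((2 * C0 * B) ^ n * (∑ p ∈ PP, (p : ℝ) ^ (-s)) + ∑ _p ∈ PP, (1 : ℝ)) := by
    rw [Finset.mul_sum, ← Finset.sum_add_distrib, Finset.mul_sum]
    refine Finset.sum_congr rfl fun p _ => ?_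
    ring
  rw [h2] at h1
  refine h1.trans ?_
  have hE00 : 0 ≤ E0 := by rw [hE0]; positivity
  have h3 : (2 * C0 * (B : ℝ)) ^ n * (∑ p ∈ PP, (p : ℝ) ^ (-s)) + ∑ _p ∈ PP, (1 : ℝ) ≤
      ((2 * C0) ^ n * T + (2 * C0) ^ ((k : ℝ) / 2)) * (B : ℝ) ^ ((n : ℝ) - c) := by
    rw [add_mul]
    refine add_le_add ?_ ?_
    · calc (2 * C0 * (B : ℝ)) ^ n * (∑ p ∈ PP, (p : ℝ) ^ (-s)) ≤
            (2 * C0 * (B : ℝ)) ^ n * ((B : ℝ) ^ (-(δ * τ)) * T) :=
            mul_le_mul_of_nonneg_left hS1 (by positivity)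
        _ = (2 * C0) ^ n * T * ((B : ℝ) ^ n * (B : ℝ) ^ (-(δ * τ))) := by
            rw [mul_pow]; ring
        _ ≤ (2 * C0) ^ n * T * (B : ℝ) ^ ((n : ℝ) - c) := by
            refine mul_le_mul_of_nonneg_left ?_ (by positivity)
            rw [← Real.rpow_natCast, ← Real.rpow_add hBpos]
            refine Real.rpow_le_rpow_of_exponent_le hB1 ?_
            have := min_le_left (δ * τ) ((n : ℝ) - k / 2)
            linarith
    · refine hS2.trans ?_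
      rw [hY, Real.mul_rpow (by positivity) hBpos.le]
      refine mul_le_mul_of_nonneg_left ?_ (by positivity)
      refine Real.rpow_le_rpow_of_exponent_le hB1 ?_
      have := min_le_right (δ * τ) ((n : ℝ) - k / 2)
      linarith
  have h4 : (2 * (B : ℝ) + 1) ^ (e - n) ≤ 3 ^ (e - n) * (B : ℝ) ^ ((e : ℝ) - n) := by
    have h5 : (B : ℝ) ^ ((e : ℝ) - n) = (B : ℝ) ^ (e - n) := by
      rw [← Real.rpow_natCast, Nat.cast_sub hne]
    rw [h5, ← mul_pow]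
    exact pow_le_pow_left₀ (by positivity) (by linarith) _
  calc E0 * 2 ^ n * (2 * (B : ℝ) + 1) ^ (e - n) *
        ((2 * C0 * B) ^ n * (∑ p ∈ PP, (p : ℝ) ^ (-s)) + ∑ _p ∈ PP, (1 : ℝ)) ≤
        E0 * 2 ^ n * (3 ^ (e - n) * (B : ℝ) ^ ((e : ℝ) - n)) *
        (((2 * C0) ^ n * T + (2 * C0) ^ ((k : ℝ) / 2)) * (B : ℝ) ^ ((n : ℝ) - c)) := by
        refine mul_le_mul (mul_le_mul_of_nonneg_left h4 (by positivity)) h3 ?_ (by positivity)
        have h6 : 0 ≤ ∑ p ∈ PP, (p : ℝ) ^ (-s) := Finset.sum_nonneg fun p _ => by positivity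
        have h7 : 0 ≤ ∑ _p ∈ PP, (1 : ℝ) := Finset.sum_nonneg fun p _ => zero_le_one
        positivity
    _ = E0 * 2 ^ n * 3 ^ (e - n) * ((2 * C0) ^ n * T + (2 * C0) ^ ((k : ℝ) / 2)) *
        ((B : ℝ) ^ ((e : ℝ) - n) * (B : ℝ) ^ ((n : ℝ) - c)) := by ring
    _ = E0 * 2 ^ n * 3 ^ (e - n) * ((2 * C0) ^ n * T + (2 * C0) ^ ((k : ℝ) / 2)) *
        (B : ℝ) ^ ((e : ℝ) - c) := by
        rw [← Real.rpow_add hBpos]
        congr 2
        ring
    _ ≤ C * (B : ℝ) ^ ((e : ℝ) - c) := by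
        refine mul_le_mul_of_nonneg_right ?_ (by positivity)
        rw [hC]
        refine mul_le_mul_of_nonneg_left (by linarith) (by positivity)

end Run7.h742.DG
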