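import Pool.Agent.Run7.h742.DG.Plc

/-!
# The truncated counting function and the radical (helper742)
-/

set_option autoImplicit false

namespace Run7.h742.DG

open Polynomial NumberField IsDedekindDomain Pool.Agent.TH910.Voj

variable {L : Type} [Field L] [NumberField L]

/-- the places which count -/
def Places {r : ℕ} (S : Finset ℕ) (f : Fin r → ℤ[X]) (e : ℕ) (x : L) :
    Set (HeightOneSpectrum (𝓞 L)) :=
  {v | (∀ p ∈ S, p.Prime → ((p : ℕ) : 𝓞 L) ∉ v.asIdeal) ∧
    ((0 < e ∧ 1 < v.valuation L x) ∨ ∃ j, Near v x (f j))}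

/-- the truncated counting function -/
noncomputable def counting {r : ℕ} (S : Finset ℕ) (f : Fin r → ℤ[X]) (e : ℕ) (x : L) : ℝ :=
  (∑ᶠ v ∈ Places S f e x, Real.log (Ideal.absNorm v.asIdeal : ℝ)) / (Module.finrank ℚ L : ℝ)

theorem places_finite {r : ℕ} (S : Finset ℕ) (f : Fin r → ℤ[X]) (e : ℕ) (x : L)
    (h0 : ∀ j, aeval x (f j) ≠ 0) : (Places S f e x).Finite := by
  refine ((gt_one_finite x).union (Set.finite_iUnion fun j => near_finite x (f j) (h0 j))).subset ?_
  rintro v ⟨-, h | ⟨j, hj⟩⟩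
  · exact Or.inl h.2
  · exact Or.inr (Set.mem_iUnion.2 ⟨j, hj⟩)

theorem log_absNorm_nonneg (v : HeightOneSpectrum (𝓞 L)) :
    0 ≤ Real.log (Ideal.absNorm v.asIdeal : ℝ) := Real.log_natCast_nonneg _

theorem counting_nonneg {r : ℕ} (S : Finset ℕ) (f : Fin r → ℤ[X]) (e : ℕ) (x : L) :
    0 ≤ counting S f e x := by
  unfold counting
  refine div_nonneg ?_ (Nat.cast_nonneg _)
  exact finsum_nonneg fun v => finsum_nonneg fun _ => log_absNorm_nonneg v

theorem counting_ge {r : ℕ} (S : Finset ℕ) (f : Fin r → ℤ[X]) (e : ℕ) {x : L} {P : ℤ[X]}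
    (hP : Irreducible (P.map (Int.castRingHom ℚ))) (hx : aeval x P = 0)
    (hd : P.natDegree = Module.finrank ℚ L)
    (h0 : ∀ j, resultant (f j) P (f j).natDegree P.natDegree ≠ 0) :
    logRad (S ∪ P.leadingCoeff.natAbs.primeFactors)
      (∏ j, resultant (f j) P (f j).natDegree P.natDegree) ≤
      (Module.finrank ℚ L : ℝ) * counting S f e x := by
  classical
  have hfx : ∀ j, aeval x (f j) ≠ 0 := by
    intro j hj
    apply h0 j
    have h1 := resultant_eq_norm x P hP hx hd (f j) (f j).natDegree le_rfl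
    rw [hj, Algebra.norm_zero, mul_zero] at h1
    have h2 : resultant P (f j) P.natDegree (f j).natDegree = 0 := by exact_mod_cast h1
    rw [resultant_comm, h2, mul_zero]
  have hfin := places_finite S f e x hfx
  have hL : (0 : ℝ) < Module.finrank ℚ L := by exact_mod_cast Module.finrank_pos
  unfold counting
  rw [mul_div_cancel₀ _ hL.ne', finsum_mem_eq_finite_toFinset_sum _ hfin]
  set N := (∏ j, resultant (f j) P (f j).natDegree P.natDegree).natAbs with hN
  set A := N.primeFactors \ (S ∪ P.leadingCoeff.natAbs.primeFactors) with hA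
  have hex : ∀ p ∈ A, ∃ v : HeightOneSpectrum (𝓞 L), v.asIdeal.under ℤ = .span {(p : ℤ)} ∧
      v ∈ Places S f e x := by
    intro p hp
    rw [hA, Finset.mem_sdiff, Nat.mem_primeFactors, Finset.mem_union, not_or] at hp
    obtain ⟨⟨hpp, hpN, -⟩, hpS, hpM⟩ := hp
    have hpp' : Prime (p : ℤ) := Nat.prime_iff_prime_int.1 hpp
    have hdvd : (p : ℤ) ∣ ∏ j, resultant (f j) P (f j).natDegree P.natDegree :=
      Int.natCast_dvd.2 hpN
    obtain ⟨j, -, hj⟩ := (hpp'.dvd_finsetProd_iff _).1 hdvd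
    have hlc0 : P.leadingCoeff ≠ 0 := by
      rw [Ne, leadingCoeff_eq_zero]
      rintro rfl
      exact hP.ne_zero (Polynomial.map_zero _)
    have hpM' : ¬ (p : ℤ) ∣ P.leadingCoeff := by
      intro h
      apply hpM
      rw [Nat.mem_primeFactors]
      exact ⟨hpp, Int.natCast_dvd.1 h, Int.natAbs_ne_zero.2 hlc0⟩
    obtain ⟨v, hv1, hv2⟩ := exists_place hP hx hd (f j) hpp hpM' hj
    refine ⟨v, hv1, fun q hq hqp hmem => ?_, Or.inr ⟨j, hv2⟩⟩
    have h5 : (q : ℤ) ∈ v.asIdeal.under ℤ := by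
      rw [Ideal.under_def, Ideal.mem_comap]
      simpa using hmem
    rw [hv1, Ideal.mem_span_singleton] at h5
    have h6 : p ∣ q := by exact_mod_cast h5
    have h7 := (Nat.prime_dvd_prime_iff_eq hpp hqp).1 h6
    exact hpS (h7 ▸ hq)
  have h1 : logRad (S ∪ P.leadingCoeff.natAbs.primeFactors)
      (∏ j, resultant (f j) P (f j).natDegree P.natDegree) = ∑ p ∈ A, Real.log (p : ℝ) := rfl
  rw [h1]
  rcases A.eq_empty_or_nonempty with hA0 | ⟨p0, hp0⟩
  · rw [hA0, Finset.sum_empty]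
    exact Finset.sum_nonneg fun w _ => log_absNorm_nonneg w
  have : Nonempty (HeightOneSpectrum (𝓞 L)) := ⟨(hex p0 hp0).choose⟩
  choose! v hv1 hv2 using hex
  have hinj : Set.InjOn v (A : Set ℕ) := by
    intro p hp q hq h
    have h1 := hv1 p hp
    have h2 := hv1 q hq
    rw [h, h2] at h1
    have hpp := Nat.prime_of_mem_primeFactors (Finset.mem_sdiff.1 hp).1
    have hqp := Nat.prime_of_mem_primeFactors (Finset.mem_sdiff.1 hq).1
    have h3 : (q : ℤ) ∈ Ideal.span {(p : ℤ)} := by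
      rw [← h1]
      exact Ideal.mem_span_singleton_self _
    rw [Ideal.mem_span_singleton] at h3
    exact (Nat.prime_dvd_prime_iff_eq hpp hqp).1 (by exact_mod_cast h3)
  have h2 : ∀ p ∈ A, Real.log (p : ℝ) ≤ Real.log (Ideal.absNorm (v p).asIdeal : ℝ) := by
    intro p hp
    have hpp := Nat.prime_of_mem_primeFactors (Finset.mem_sdiff.1 hp).1
    obtain ⟨n, hn, hn2⟩ := absNorm_Pr L hpp (v p).asIdeal (v p).isMaximal (hv1 p hp)
    rw [hn2]
    refine Real.log_le_log (by exact_mod_cast hpp.pos) ?_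
    have h3 : p ^ 1 ≤ p ^ n := Nat.pow_le_pow_right hpp.pos hn
    rw [pow_one] at h3
    exact_mod_cast h3
  calc ∑ p ∈ A, Real.log (p : ℝ) ≤ ∑ p ∈ A, Real.log (Ideal.absNorm (v p).asIdeal : ℝ) :=
        Finset.sum_le_sum h2
    _ = ∑ w ∈ A.image v, Real.log (Ideal.absNorm w.asIdeal : ℝ) :=
        (Finset.sum_image (f := fun w : HeightOneSpectrum (𝓞 L) =>
          Real.log (Ideal.absNorm w.asIdeal : ℝ)) hinj).symm
    _ ≤ ∑ w ∈ hfin.toFinset, Real.log (Ideal.absNorm w.asIdeal : ℝ) := by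
        refine Finset.sum_le_sum_of_subset_of_nonneg ?_ fun w _ _ => log_absNorm_nonneg w
        intro w hw
        obtain ⟨p, hp, rfl⟩ := Finset.mem_image.1 hw
        rw [Set.Finite.mem_toFinset]
        exact hv2 p hp

end Run7.h742.DG
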