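import Pool.Agent.Run7.h742.DG.Cnt

/-!
# The closed points of degree `d` of the line (helper742)
-/

set_option autoImplicit false

namespace Run7.h742.DG

open Polynomial NumberField IsDedekindDomain Pool.Agent.TH910.Voj

/-- different closed points of the affine line over `ℚ` -/
structure Divisor {r : ℕ} (f : Fin r → ℤ[X]) : Prop where
  /-- each component is a closed point -/
  irreducible : ∀ j, Irreducible (f j)
  /-- the equations are not constant -/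
  degree : ∀ j, 1 ≤ (f j).natDegree
  /-- the points are different -/
  reduced : Squarefree ((∏ j, f j).map (Int.castRingHom ℚ))

/-- the height -/
noncomputable def height (P : ℤ[X]) : ℝ :=
  Real.log (P.map (Int.castRingHom ℂ)).mahlerMeasure / (P.natDegree : ℝ)

/-- the inequality fails -/
def Fails {r : ℕ} (f : Fin r → ℤ[X]) (e : ℕ) (η θ B : ℝ) (P : ℤ[X]) : Prop :=
  ∃ (L : Type) (_ : Field L) (_ : NumberField L) (x : L),
    Module.finrank ℚ L = P.natDegree ∧ aeval x P = 0 ∧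
      ((∃ j, aeval x (f j) = 0) ∨ ∃ S : Finset ℕ,
        ∑ p ∈ S, Real.log (p : ℝ) ≤ η * (P.natDegree * Real.log B) ∧
          counting S f e x < θ * Real.log B)

/-- the exceptional closed points -/
def Exceptions {r : ℕ} (d : ℕ) (f : Fin r → ℤ[X]) (e : ℕ) (η θ B : ℝ) : Set ℤ[X] :=
  {P | Irreducible P ∧ P.natDegree = d ∧ height P ≤ Real.log B ∧ Fails f e η θ B P}

theorem irreducible_map {P : ℤ[X]} (hP : Irreducible P) (hd : 1 ≤ P.natDegree) :
    Irreducible (P.map (Int.castRingHom ℚ)) := by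
  have hprim : P.IsPrimitive := hP.isPrimitive (by omega)
  exact (IsPrimitive.Int.irreducible_iff_irreducible_map_cast hprim).1 hP

theorem coeff_le_of_height {P : ℤ[X]} {d : ℕ} {B : ℝ} (hB : 1 ≤ B) (hP : Irreducible P)
    (hd : P.natDegree = d) (hd1 : 1 ≤ d) (hh : height P ≤ Real.log B) (i : ℕ) :
    |P.coeff i| ≤ ((⌊(2 : ℝ) ^ d * B ^ d⌋₊ : ℕ) : ℤ) := by
  have hd0 : (0 : ℝ) < d := by exact_mod_cast hd1
  have hM1 : 1 ≤ (P.map (Int.castRingHom ℂ)).mahlerMeasure :=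
    one_le_mahlerMeasure_of_ne_zero hP.ne_zero
  have hM : (P.map (Int.castRingHom ℂ)).mahlerMeasure ≤ B ^ d := by
    have h1 : Real.log (P.map (Int.castRingHom ℂ)).mahlerMeasure ≤ d * Real.log B := by
      unfold height at hh
      rw [hd, div_le_iff₀ hd0] at hh
      linarith
    rw [← Real.log_pow] at h1
    exact (Real.log_le_log_iff (by linarith) (by positivity)).1 h1
  have h1 := norm_coeff_le_choose_mul_mahlerMeasure i (P.map (Int.castRingHom ℂ))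
  rw [coeff_map, eq_intCast, Complex.norm_intCast,
    natDegree_map_eq_of_injective (RingHom.injective_int _), hd] at h1
  have h2 : |(P.coeff i : ℝ)| ≤ (2 : ℝ) ^ d * B ^ d := by
    refine h1.trans (mul_le_mul ?_ hM (by linarith) (by positivity))
    exact_mod_cast Nat.choose_le_two_pow d i
  have h3 : ((P.coeff i).natAbs : ℝ) ≤ (2 : ℝ) ^ d * B ^ d := by
    rw [Nat.cast_natAbs]
    push_cast
    exact h2
  have h4 : (P.coeff i).natAbs ≤ ⌊(2 : ℝ) ^ d * B ^ d⌋₊ := Nat.le_floor h3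
  rw [Int.abs_eq_natAbs]
  exact_mod_cast h4

/-- the size of the coefficients -/
theorem T_facts (d : ℕ) (hd : 1 ≤ d) {B : ℝ} (hB : 1 ≤ B) :
    2 ≤ ⌊(2 : ℝ) ^ d * B ^ d⌋₊ ∧ d * Real.log B ≤ Real.log ⌊(2 : ℝ) ^ d * B ^ d⌋₊ ∧
      ((⌊(2 : ℝ) ^ d * B ^ d⌋₊ : ℕ) : ℝ) ≤ (2 : ℝ) ^ d * B ^ d := by
  have hBd : 1 ≤ B ^ d := one_le_pow₀ hB
  have h2d : (2 : ℝ) ≤ 2 ^ d := by
    calc (2 : ℝ) = 2 ^ 1 := (pow_one _).symm
      _ ≤ 2 ^ d := pow_le_pow_right₀ (by norm_num) hd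
  have h0 : (0 : ℝ) ≤ (2 : ℝ) ^ d * B ^ d := by positivity
  have h1 : (2 : ℝ) ≤ (2 : ℝ) ^ d * B ^ d := by nlinarith
  refine ⟨Nat.le_floor (by exact_mod_cast h1), ?_, Nat.floor_le h0⟩
  rw [← Real.log_pow]
  refine Real.log_le_log (by positivity) ?_
  have h2 : (2 : ℝ) ^ d * B ^ d < (⌊(2 : ℝ) ^ d * B ^ d⌋₊ : ℝ) + 1 := Nat.lt_floor_add_one _
  nlinarith

/-- The condition of the counting theorem. -/
theorem cond_of_fails {r : ℕ} {f : Fin r → ℤ[X]} {e : ℕ} {η θ B : ℝ} {P : ℤ[X]} {d : ℕ}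
    (hd1 : 1 ≤ d) (hB : 1 ≤ B) (hη : 0 ≤ η) (hθ : 0 ≤ θ) (hP : Irreducible P)
    (hd : P.natDegree = d) (hF : Fails f e η θ B P) :
    (∃ j, resultant (f j) P (f j).natDegree d = 0) ∨
      ∃ S : Finset ℕ, ∑ p ∈ S, Real.log (p : ℝ) ≤
          η * Real.log (⌊(2 : ℝ) ^ d * B ^ d⌋₊ : ℕ) ∧
        logRad (S ∪ P.leadingCoeff.natAbs.primeFactors)
          (∏ j, resultant (f j) P (f j).natDegree d) <
            θ * Real.log (⌊(2 : ℝ) ^ d * B ^ d⌋₊ : ℕ) := by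
  obtain ⟨L, _, _, x, hL, hx, h⟩ := hF
  have hPQ := irreducible_map hP (by omega)
  obtain ⟨-, hT, -⟩ := T_facts d hd1 hB
  by_cases h0 : ∃ j, resultant (f j) P (f j).natDegree d = 0
  · exact Or.inl h0
  push Not at h0
  right
  have hd0 : (0 : ℝ) < d := by exact_mod_cast hd1
  rcases h with ⟨j, hj⟩ | ⟨S, hS, hlt⟩
  · exfalso
    apply h0 j
    have h1 := resultant_eq_norm x P hPQ hx hL.symm (f j) (f j).natDegree le_rfl
    rw [hj, Algebra.norm_zero, mul_zero] at h1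
    have h2 : resultant P (f j) P.natDegree (f j).natDegree = 0 := by exact_mod_cast h1
    rw [← hd, resultant_comm, h2, mul_zero]
  · refine ⟨S, hS.trans ?_, ?_⟩
    · rw [hd]
      exact mul_le_mul_of_nonneg_left hT hη
    · have h1 := counting_ge S f e hPQ hx hL.symm (fun j => by rw [hd]; exact h0 j)
      rw [hL, hd] at h1
      refine h1.trans_lt ?_
      calc (d : ℝ) * counting S f e x < d * (θ * Real.log B) := mul_lt_mul_of_pos_left hlt hd0
        _ = θ * (d * Real.log B) := by ring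
        _ ≤ _ := mul_le_mul_of_nonneg_left hT hθ

theorem pow_bound (d n : ℕ) (hd : 1 ≤ d) (hn : 1 ≤ n) {B c C : ℝ} (hB : 1 ≤ B) (hc : 0 < c)
    (hc1 : c ≤ 1) (hC : 0 < C) {N : ℝ}
    (hN : N ≤ C * ((⌊(2 : ℝ) ^ d * B ^ d⌋₊ : ℕ) : ℝ) ^ ((n : ℝ) - c)) :
    N ≤ (C * (2 ^ d) ^ n) * B ^ ((d * n : ℕ) - d * c : ℝ) := by
  obtain ⟨hT2, -, hT⟩ := T_facts d hd hB
  have hn1 : (1 : ℝ) ≤ n := by exact_mod_cast hn
  have hexp : 0 ≤ (n : ℝ) - c := by linarith
  have hB0 : 0 < B := by linarith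
  refine hN.trans ?_
  rw [mul_assoc]
  refine mul_le_mul_of_nonneg_left ?_ hC.le
  calc ((⌊(2 : ℝ) ^ d * B ^ d⌋₊ : ℕ) : ℝ) ^ ((n : ℝ) - c) ≤
        ((2 : ℝ) ^ d * B ^ d) ^ ((n : ℝ) - c) := Real.rpow_le_rpow (Nat.cast_nonneg _) hT hexp
    _ = ((2 : ℝ) ^ d) ^ ((n : ℝ) - c) * (B ^ d) ^ ((n : ℝ) - c) :=
        Real.mul_rpow (by positivity) (by positivity)
    _ ≤ (2 ^ d) ^ n * B ^ ((d * n : ℕ) - d * c : ℝ) := by
        refine mul_le_mul ?_ (le_of_eq ?_) (by positivity) (by positivity)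
        · rw [← Real.rpow_natCast ((2 : ℝ) ^ d) n]
          exact Real.rpow_le_rpow_of_exponent_le (one_le_pow₀ (by norm_num)) (by linarith)
        · rw [← Real.rpow_natCast B d, ← Real.rpow_mul hB0.le]
          congr 1
          push_cast
          ring

end Run7.h742.DG
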