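import Pool.Agent.Run7.h742.DG.Fin

/-!
# The closed points of degree `d` of the line: the theorems (helper742)
-/

set_option autoImplicit false

namespace Run7.h742.DG

open Polynomial NumberField IsDedekindDomain Pool.Agent.TH910.Voj

/-- a finite count from an injection into a box -/
theorem count_of_box {m T : ℕ} (E : Set ℤ[X]) (φ : ℤ[X] → (Fin (m + 2) → ℤ))
    (hφ : Set.InjOn φ E) (hbox : ∀ P ∈ E, ∀ i, |φ P i| ≤ (T : ℤ)) (N : ℝ)
    (hN : ∀ Z : Finset (Fin (m + 2) → ℤ), (∀ z ∈ Z, ∃ P ∈ E, φ P = z) → (Z.card : ℝ) ≤ N) :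
    E.Finite ∧ (E.ncard : ℝ) ≤ N := by
  classical
  have h1 : (φ '' E).Finite := by
    refine (Fintype.piFinset fun _ : Fin (m + 2) =>
      Finset.Icc (-(T : ℤ)) T).finite_toSet.subset ?_
    rintro z ⟨P, hP, rfl⟩
    rw [Finset.mem_coe, Fintype.mem_piFinset]
    intro i
    rw [Finset.mem_Icc, ← abs_le]
    exact hbox P hP i
  have h2 : E.Finite := Set.Finite.of_finite_image h1 hφ
  refine ⟨h2, ?_⟩
  have h3 : E.ncard = (h1.toFinset).card := by
    rw [← Set.ncard_image_of_injOn hφ, Set.ncard_eq_toFinset_card _ h1]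
  rw [h3]
  refine hN _ fun z hz => ?_
  rw [Set.Finite.mem_toFinset] at hz
  obtain ⟨P, hP, rfl⟩ := hz
  exact ⟨P, hP, rfl⟩

theorem weight_eq (t k : ℕ) (ht : 2 ≤ t) :
    (if k < t then k else min k 2) = if k < t then k else 2 := by
  split_ifs with h
  · rfl
  · exact min_eq_right (by omega)

theorem Exceptions_mono {r : ℕ} {d : ℕ} {f : Fin r → ℤ[X]} {e : ℕ} {η θ B : ℝ} {P : ℤ[X]}
    (h : P ∈ Exceptions d f e η θ B) : Irreducible P ∧ P.natDegree = d ∧
      height P ≤ Real.log B ∧ Fails f e η θ B P := h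

/-- **All closed points of degree `d`.** -/
theorem all_points {r : ℕ} (f : Fin r → ℤ[X]) (hf : Divisor f) (e d : ℕ) (hd : 1 ≤ d)
    (η θ : ℝ) (hη : 0 ≤ η) (hθ : 0 ≤ θ) (h : θ + η < ∑ j, ((if (f j).natDegree < 2 * (d + 1) then
      (f j).natDegree else 2 : ℕ) : ℝ)) :
    ∃ c : ℝ, 0 < c ∧ ∃ C : ℝ, 0 < C ∧ ∀ B : ℝ, 1 ≤ B → (Exceptions d f e η θ B).Finite ∧
      ((Exceptions d f e η θ B).ncard : ℝ) ≤ C * B ^ ((d * (d + 1) : ℕ) - c) := by
  classical
  obtain ⟨m, rfl⟩ : ∃ m, d = m + 1 := ⟨d - 1, by omega⟩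
  obtain ⟨c₀, hc₀, C₀, hC₀, hasm⟩ := asm f (fun j => irreducible_map (hf.irreducible j)
    (hf.degree j)) hf.reduced (m + 1) m le_rfl θ η (by
      refine h.trans_le (le_of_eq (Finset.sum_congr rfl fun j _ => ?_))
      rw [weight_eq _ _ (by omega)])
  set c : ℝ := min c₀ 1 with hc
  have hc0 : 0 < c := lt_min hc₀ one_pos
  have hc1 : c ≤ 1 := min_le_right _ _
  have hcc : c ≤ c₀ := min_le_left _ _
  have hd0 : (0 : ℝ) < ((m + 1 : ℕ) : ℝ) := by positivity
  refine ⟨((m + 1 : ℕ) : ℝ) * c, by positivity, C₀ * (2 ^ (m + 1)) ^ (m + 2), by positivity,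
    fun B hB => ?_⟩
  obtain ⟨hT2, -, -⟩ := T_facts (m + 1) hd hB
  set T : ℕ := ⌊(2 : ℝ) ^ (m + 1) * B ^ (m + 1)⌋₊ with hT
  have hT1 : (1 : ℝ) ≤ T := by exact_mod_cast (by omega : 1 ≤ T)
  refine count_of_box (m := m) (T := T) _ (fun P i => P.coeff i) ?_ ?_ _ ?_
  · intro P hP Q hQ hPQ
    obtain ⟨-, h1, -⟩ := Exceptions_mono hP
    obtain ⟨-, h2, -⟩ := Exceptions_mono hQ
    ext j
    by_cases hj : j < m + 2
    · exact congrFun hPQ ⟨j, hj⟩
    · rw [coeff_eq_zero_of_natDegree_lt (by omega), coeff_eq_zero_of_natDegree_lt (by omega)]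
  · intro P hP i
    obtain ⟨h1, h2, h3, -⟩ := Exceptions_mono hP
    exact coeff_le_of_height hB h1 h2 hd h3 i
  · intro Z hZ
    have key := hasm T hT2 0 (by simp) (fun i => by rw [coeff_zero, abs_zero]; positivity)
      (fun w => w (Fin.last m)) Z (fun z hz => by
        obtain ⟨P, hP, rfl⟩ := hZ z hz
        obtain ⟨h1, h2, h3, h4⟩ := Exceptions_mono hP
        have hpol : polOf (m + 2) 0 (fun i => P.coeff i) = P := by
          ext j
          unfold polOf
          rw [zero_add, low_coeff]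
          split_ifs with hj
          · rfl
          · rw [coeff_eq_zero_of_natDegree_lt (by omega)]
        have hlast : (Fin.tail fun i : Fin (m + 2) => P.coeff (i : ℕ)) (Fin.last m) =
            P.leadingCoeff := by
          show P.coeff ((Fin.last m).succ : ℕ) = P.coeff P.natDegree
          rw [h2]
          simp
        refine ⟨fun i => coeff_le_of_height hB h1 h2 hd h3 i, ?_, ?_, ?_⟩
        · rw [hlast]
          exact leadingCoeff_ne_zero.2 h1.ne_zero
        · rw [hlast]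
          exact coeff_le_of_height hB h1 h2 hd h3 _
        · rw [hlast, hpol]
          exact cond_of_fails hd hB hη hθ h1 h2 h4)
    have key2 : (Z.card : ℝ) ≤ C₀ * ((T : ℕ) : ℝ) ^ (((m + 2 : ℕ) : ℝ) - c) := by
      refine key.trans (mul_le_mul_of_nonneg_left ?_ hC₀.le)
      exact Real.rpow_le_rpow_of_exponent_le hT1 (by linarith)
    have h5 := pow_bound (m + 1) (m + 2) hd (by omega) hB hc0 hc1 hC₀ key2
    exact h5

/-- **Closed points of degree `d` with a given denominator.** -/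
theorem den_points {r : ℕ} (f : Fin r → ℤ[X]) (hf : Divisor f) (e d : ℕ) (hd : 2 ≤ d)
    (η θ : ℝ) (hη : 0 ≤ η) (hθ : 0 ≤ θ) (h : θ + η < ∑ j, ((if (f j).natDegree < 2 * d then
      (f j).natDegree else 2 : ℕ) : ℝ)) :
    ∃ c : ℝ, 0 < c ∧ ∃ C : ℝ, 0 < C ∧ ∀ B : ℝ, 1 ≤ B → ∀ a : ℤ,
      ({P | P ∈ Exceptions d f e η θ B ∧ P.leadingCoeff = a}.ncard : ℝ) ≤
        C * B ^ ((d * d : ℕ) - c) := by
  classical
  obtain ⟨m, rfl⟩ : ∃ m, d = m + 2 := ⟨d - 2, by omega⟩
  obtain ⟨c₀, hc₀, C₀, hC₀, hasm⟩ := asm f (fun j => irreducible_map (hf.irreducible j)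
    (hf.degree j)) hf.reduced (m + 2) m (by omega) θ η (by
      refine h.trans_le (le_of_eq (Finset.sum_congr rfl fun j _ => ?_))
      rw [weight_eq _ _ (by omega)])
  set c : ℝ := min c₀ 1 with hc
  have hc0 : 0 < c := lt_min hc₀ one_pos
  have hc1 : c ≤ 1 := min_le_right _ _
  have hcc : c ≤ c₀ := min_le_left _ _
  have hd0 : (0 : ℝ) < ((m + 2 : ℕ) : ℝ) := by positivity
  refine ⟨((m + 2 : ℕ) : ℝ) * c, by positivity, C₀ * (2 ^ (m + 2)) ^ (m + 2), by positivity,
    fun B hB a => ?_⟩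
  obtain ⟨hT2, -, -⟩ := T_facts (m + 2) (by omega) hB
  set T : ℕ := ⌊(2 : ℝ) ^ (m + 2) * B ^ (m + 2)⌋₊ with hT
  have hT1 : (1 : ℝ) ≤ T := by exact_mod_cast (by omega : 1 ≤ T)
  by_cases ha : |a| ≤ (T : ℤ)
  swap
  · have h0 : {P | P ∈ Exceptions (m + 2) f e η θ B ∧ P.leadingCoeff = a} = ∅ := by
      rw [Set.eq_empty_iff_forall_notMem]
      rintro P ⟨hP, hPa⟩
      obtain ⟨h1, h2, h3, -⟩ := Exceptions_mono hP
      apply ha
      rw [← hPa]
      exact coeff_le_of_height hB h1 h2 (by omega) h3 _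
    rw [h0, Set.ncard_empty, Nat.cast_zero]
    positivity
  refine (count_of_box (m := m) (T := T) _ (fun P i => P.coeff i) ?_ ?_ _ ?_).2
  · intro P hP Q hQ hPQ
    obtain ⟨hP, hPa⟩ := hP
    obtain ⟨hQ, hQa⟩ := hQ
    obtain ⟨-, h1, -⟩ := Exceptions_mono hP
    obtain ⟨-, h2, -⟩ := Exceptions_mono hQ
    ext j
    rcases lt_trichotomy j (m + 2) with hj | hj | hj
    · exact congrFun hPQ ⟨j, hj⟩
    · rw [hj]
      rw [leadingCoeff, h1] at hPa
      rw [leadingCoeff, h2] at hQa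
      rw [hPa, hQa]
    · rw [coeff_eq_zero_of_natDegree_lt (by omega), coeff_eq_zero_of_natDegree_lt (by omega)]
  · intro P hP i
    obtain ⟨h1, h2, h3, -⟩ := Exceptions_mono hP.1
    exact coeff_le_of_height hB h1 h2 (by omega) h3 i
  · intro Z hZ
    have key := hasm T hT2 (C a * X ^ (m + 2)) (natDegree_C_mul_X_pow_le _ _) (fun i => by
        rw [coeff_C_mul, coeff_X_pow]
        split_ifs
        · rw [mul_one]; exact ha
        · rw [mul_zero, abs_zero]; positivity)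
      (fun _ => a) Z (fun z hz => by
        obtain ⟨P, ⟨hP, hPa⟩, rfl⟩ := hZ z hz
        obtain ⟨h1, h2, h3, h4⟩ := Exceptions_mono hP
        have hpol : polOf (m + 2) (C a * X ^ (m + 2)) (fun i => P.coeff i) = P := by
          ext j
          unfold polOf
          rw [coeff_add, low_coeff, coeff_C_mul, coeff_X_pow]
          rcases lt_trichotomy j (m + 2) with hj | hj | hj
          · rw [if_neg (by omega), dif_pos hj, mul_zero, zero_add]
          · rw [if_pos hj, dif_neg (by omega), mul_one, add_zero, hj, ← hPa, leadingCoeff, h2]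
          · rw [if_neg (by omega), dif_neg (by omega), mul_zero, zero_add,
              coeff_eq_zero_of_natDegree_lt (by omega)]
        refine ⟨fun i => coeff_le_of_height hB h1 h2 (by omega) h3 i, ?_, ha, ?_⟩
        · rw [← hPa]
          exact leadingCoeff_ne_zero.2 h1.ne_zero
        · rw [hpol, ← hPa]
          exact cond_of_fails (by omega) hB hη hθ h1 h2 h4)
    have key2 : (Z.card : ℝ) ≤ C₀ * ((T : ℕ) : ℝ) ^ (((m + 2 : ℕ) : ℝ) - c) := by
      refine key.trans (mul_le_mul_of_nonneg_left ?_ hC₀.le)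
      exact Real.rpow_le_rpow_of_exponent_le hT1 (by linarith)
    exact pow_bound (m + 2) (m + 2) (by omega) (by omega) hB hc0 hc1 hC₀ key2

end Run7.h742.DG
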