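import Mathlib

/-!
# Elements whose norm is divisible by the square of a prime (helper742)
-/

set_option autoImplicit false
set_option linter.deprecated false

namespace Run7.h742.DG

open NumberField Ideal

variable (K : Type*) [Field K] [NumberField K]

/-- the primes above `p` -/
noncomputable def Pr (p : ℕ) : Finset (Ideal (𝓞 K)) :=
  IsDedekindDomain.primesOverFinset (Ideal.span {(p : ℤ)}) (𝓞 K)

theorem span_isMaximal {p : ℕ} (hp : p.Prime) : (Ideal.span {(p : ℤ)}).IsMaximal := by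
  have hp' : Prime (p : ℤ) := Nat.prime_iff_prime_int.1 hp
  exact ((Ideal.span_singleton_prime hp'.ne_zero).mpr hp').isMaximal (by simpa using hp'.ne_zero)

theorem card_Pr {p : ℕ} (hp : p.Prime) : (Pr K p).card ≤ Module.finrank ℚ K := by
  have := span_isMaximal hp
  have h0 : Ideal.span {(p : ℤ)} ≠ ⊥ := by
    rw [Ne, Ideal.span_singleton_eq_bot]
    exact_mod_cast hp.ne_zero
  exact Ideal.card_primesOverFinset_le_finrank (𝓞 K) ℚ K h0

theorem mem_Pr {p : ℕ} (hp : p.Prime) (P : Ideal (𝓞 K)) (hP : P.IsMaximal)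
    (h : P.under ℤ = .span {(p : ℤ)}) : P ∈ Pr K p := by
  have := span_isMaximal hp
  have h0 : Ideal.span {(p : ℤ)} ≠ ⊥ := by
    rw [Ne, Ideal.span_singleton_eq_bot]
    exact_mod_cast hp.ne_zero
  unfold Pr
  rw [IsDedekindDomain.mem_primesOverFinset_iff h0]
  exact ⟨hP.isPrime, ⟨h.symm⟩⟩

theorem absNorm_Pr {p : ℕ} (hp : p.Prime) (P : Ideal (𝓞 K)) (hP : P.IsMaximal)
    (h : P.under ℤ = .span {(p : ℤ)}) : ∃ n, 0 < n ∧ absNorm P = p ^ n := by
  obtain ⟨q, n, hn, hqP, hq, H⟩ := Ideal.exists_prime_and_absNorm_eq_pow P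
  have h1 : (q : ℤ) ∈ P.under ℤ := by
    rw [Ideal.under_def, Ideal.mem_comap]
    simpa using hqP
  rw [h, Ideal.mem_span_singleton] at h1
  have h2 : p ∣ q := by exact_mod_cast h1
  have h3 : p = q := (Nat.prime_dvd_prime_iff_eq hp hq).1 h2
  subst h3
  exact ⟨n, hn, H⟩

open Classical in
/-- the ideals which are a prime above `p` or a product of two of them, and have a norm divisible
by `p ^ 2` -/
noncomputable def BB (p : ℕ) : Finset (Ideal (𝓞 K)) :=
  ((Pr K p) ∪ (Finset.image₂ (· * ·) (Pr K p) (Pr K p))).filter fun I => p ^ 2 ∣ absNorm I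

theorem card_BB {p : ℕ} (hp : p.Prime) :
    (BB K p).card ≤ Module.finrank ℚ K + Module.finrank ℚ K ^ 2 := by
  classical
  unfold BB
  refine (Finset.card_filter_le _ _).trans ((Finset.card_union_le _ _).trans ?_)
  have h1 := card_Pr K hp
  refine add_le_add h1 ((Finset.card_image₂_le _ _ _).trans ?_)
  rw [sq]
  exact Nat.mul_le_mul h1 h1

theorem dvd_of_mem_BB {p : ℕ} {I : Ideal (𝓞 K)} (h : I ∈ BB K p) : p ^ 2 ∣ absNorm I := by
  classical
  unfold BB at h
  exact (Finset.mem_filter.1 h).2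

/-- **Elements with a norm divisible by `p ^ 2`.** -/
theorem exists_BB {p : ℕ} (hp : p.Prime) (γ : 𝓞 K)
    (h : (p : ℤ) ^ 2 ∣ Algebra.norm ℤ γ) : ∃ I ∈ BB K p, γ ∈ I := by
  classical
  have h1 : p ^ 2 ∣ absNorm (Ideal.span {γ}) := by
    rw [absNorm_span_singleton]
    have := Int.natAbs_dvd_natAbs.2 h
    simpa [Int.natAbs_pow] using this
  obtain ⟨P, hPm, hPu, J, hJ⟩ := Ideal.exists_isMaximal_dvd_of_dvd_absNorm' hp (Ideal.span {γ})
    ((dvd_pow_self p two_ne_zero).trans h1)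
  obtain ⟨n, hn, hPn⟩ := absNorm_Pr K hp P hPm hPu
  have hPP := mem_Pr K hp P hPm hPu
  have hmem : ∀ I : Ideal (𝓞 K), I ∣ Ideal.span {γ} → γ ∈ I := by
    intro I hI
    exact Ideal.dvd_iff_le.1 hI (Ideal.mem_span_singleton_self γ)
  by_cases hn2 : 2 ≤ n
  · refine ⟨P, ?_, hmem P (Dvd.intro J hJ.symm)⟩
    unfold BB
    rw [Finset.mem_filter]
    refine ⟨Finset.mem_union_left _ hPP, ?_⟩
    rw [hPn]
    exact pow_dvd_pow p hn2
  · have hn1 : n = 1 := by omega
    rw [hn1, pow_one] at hPn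
    rw [hJ, map_mul, hPn, sq] at h1
    have h2 : p ∣ absNorm J := Nat.dvd_of_mul_dvd_mul_left hp.pos h1
    obtain ⟨P', hPm', hPu', J', hJ'⟩ := Ideal.exists_isMaximal_dvd_of_dvd_absNorm' hp J h2
    obtain ⟨n', hn', hPn'⟩ := absNorm_Pr K hp P' hPm' hPu'
    have hPP' := mem_Pr K hp P' hPm' hPu'
    refine ⟨P * P', ?_, hmem _ ⟨J', by rw [hJ, hJ', mul_assoc]⟩⟩
    unfold BB
    rw [Finset.mem_filter]
    refine ⟨Finset.mem_union_right _ (Finset.mem_image₂.2 ⟨P, hPP, P', hPP', rfl⟩), ?_⟩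
    rw [map_mul, hPn, hPn', sq]
    exact Nat.mul_dvd_mul_left p (dvd_pow_self p hn'.ne')

end Run7.h742.DG
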