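import Pool.Agent.Run7.h742.DG.NR
import Pool.Agent.Run7.h742.DG.Idl

/-!
# The values of polynomials at an algebraic number, made integral (helper742)
-/

set_option autoImplicit false

namespace Run7.h742.DG

open Polynomial NumberField

/-- A number field generated by a root of `f`. -/
theorem exists_field (f : ℤ[X]) (hf : Irreducible (f.map (Int.castRingHom ℚ))) :
    ∃ (K : Type) (_ : Field K) (_ : NumberField K) (x : K), aeval x f = 0 ∧
      f.natDegree = Module.finrank ℚ K := by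
  have hfact : Fact (Irreducible (f.map (Int.castRingHom ℚ))) := ⟨hf⟩
  let K := AdjoinRoot (f.map (Int.castRingHom ℚ))
  have hfin : FiniteDimensional ℚ K := (AdjoinRoot.powerBasis hf.ne_zero).finite
  have hchar : CharZero K := charZero_of_injective_algebraMap (algebraMap ℚ K).injective
  have hnf : NumberField K := ⟨⟩
  refine ⟨K, inferInstance, hnf, AdjoinRoot.root _, ?_, ?_⟩
  · have h1 := AdjoinRoot.eval₂_root (f.map (Int.castRingHom ℚ))
    rw [eval₂_map] at h1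
    rw [aeval_def, ← h1]
    congr 1
  · rw [(AdjoinRoot.powerBasis hf.ne_zero).finrank, AdjoinRoot.powerBasis_dim,
      natDegree_map_eq_of_injective Int.cast_injective]

variable {K : Type} [Field K] [NumberField K] (x : K) (f : ℤ[X])

theorem minpoly_natDegree (hf : Irreducible (f.map (Int.castRingHom ℚ))) (hx : aeval x f = 0) :
    (minpoly ℚ x).natDegree = f.natDegree := by
  have hxQ : aeval x (f.map (Int.castRingHom ℚ)) = 0 := by
    rw [← hx, aeval_def, aeval_def, eval₂_map]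
    congr 1
    exact RingHom.ext_int _ _
  rw [← minpoly.eq_of_irreducible hf hxQ, natDegree_mul_C,
    natDegree_map_eq_of_injective Int.cast_injective]
  exact inv_ne_zero (leadingCoeff_ne_zero.2 hf.ne_zero)

theorem aeval_ne_zero (hf : Irreducible (f.map (Int.castRingHom ℚ))) (hx : aeval x f = 0)
    (Q : ℤ[X]) (hQ : Q ≠ 0) (hd : Q.natDegree < f.natDegree) : aeval x Q ≠ 0 := by
  intro h0
  have hxQ : aeval x (Q.map (Int.castRingHom ℚ)) = 0 := by
    rw [← h0, aeval_def, aeval_def, eval₂_map]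
    congr 1
    exact RingHom.ext_int _ _
  have hne : Q.map (Int.castRingHom ℚ) ≠ 0 :=
    (Polynomial.map_ne_zero_iff Int.cast_injective).2 hQ
  have h1 := natDegree_le_natDegree (minpoly.degree_le_of_ne_zero ℚ x hne hxQ)
  rw [minpoly_natDegree x f hf hx, natDegree_map_eq_of_injective Int.cast_injective] at h1
  omega

/-- the integer `a x` -/
noncomputable def ax (hx : aeval x f = 0) : 𝓞 K :=
  ⟨f.leadingCoeff • x, isIntegral_leadingCoeff_smul f x hx⟩

theorem coe_ax (hx : aeval x f = 0) : ((ax x f hx : 𝓞 K) : K) = (f.leadingCoeff : K) * x := by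
  show f.leadingCoeff • x = _
  rw [zsmul_eq_mul]

/-- the integer `a ^ D P(x)` -/
noncomputable def gam (hx : aeval x f = 0) (D : ℕ) (P : ℤ[X]) : 𝓞 K :=
  ∑ i ∈ Finset.range (D + 1), ((P.coeff i * f.leadingCoeff ^ (D - i) : ℤ) : 𝓞 K) * ax x f hx ^ i

theorem gam_sub (hx : aeval x f = 0) (D : ℕ) (P Q : ℤ[X]) :
    gam x f hx D (P - Q) = gam x f hx D P - gam x f hx D Q := by
  unfold gam
  rw [← Finset.sum_sub_distrib]
  refine Finset.sum_congr rfl fun i _ => ?_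
  rw [coeff_sub]
  push_cast
  ring

theorem coe_gam_sum (hx : aeval x f = 0) (D : ℕ) (P : ℤ[X]) :
    ((gam x f hx D P : 𝓞 K) : K) = ∑ i ∈ Finset.range (D + 1),
      ((P.coeff i * f.leadingCoeff ^ (D - i) : ℤ) : K) * ((ax x f hx : 𝓞 K) : K) ^ i := by
  unfold gam
  refine (map_sum (algebraMap (𝓞 K) K) _ _).trans ?_
  refine Finset.sum_congr rfl fun i _ => ?_
  rw [map_mul, map_pow, map_intCast]

theorem coe_gam (hx : aeval x f = 0) (D : ℕ) (P : ℤ[X]) (hP : P.natDegree ≤ D) :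
    ((gam x f hx D P : 𝓞 K) : K) = (f.leadingCoeff : K) ^ D * aeval x P := by
  rw [coe_gam_sum, aeval_eq_sum_range' (Nat.lt_succ_of_le hP), Finset.mul_sum]
  refine Finset.sum_congr rfl fun i hi => ?_
  rw [Finset.mem_range] at hi
  rw [coe_ax, zsmul_eq_mul]
  have h1 : (f.leadingCoeff : K) ^ D =
      (f.leadingCoeff : K) ^ (D - i) * (f.leadingCoeff : K) ^ i := by
    rw [← pow_add]; congr 1; omega
  rw [h1]
  push_cast
  ring

theorem norm_gam (hf : Irreducible (f.map (Int.castRingHom ℚ))) (hx : aeval x f = 0)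
    (hd : f.natDegree = Module.finrank ℚ K) (D : ℕ) (P : ℤ[X]) (hP : P.natDegree ≤ D) :
    Algebra.norm ℤ (gam x f hx D P) =
      f.leadingCoeff ^ (D * (f.natDegree - 1)) * resultant f P f.natDegree D := by
  have hk : 1 ≤ f.natDegree := by rw [hd]; exact Module.finrank_pos
  have h1 : ((Algebra.norm ℤ (gam x f hx D P) : ℤ) : ℚ) =
      ((f.leadingCoeff ^ (D * (f.natDegree - 1)) * resultant f P f.natDegree D : ℤ) : ℚ) := by
    rw [Algebra.coe_norm_int, coe_gam x f hx D P hP, map_mul]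
    push_cast
    rw [resultant_eq_norm x f hf hx hd P D hP, ← mul_assoc]
    congr 1
    have h2 : (f.leadingCoeff : K) ^ D = algebraMap ℚ K ((f.leadingCoeff : ℚ) ^ D) := by
      rw [map_pow, map_intCast]
    rw [h2, Algebra.norm_algebraMap, ← hd, ← pow_mul, ← pow_add]
    congr 1
    obtain ⟨m, hm⟩ : ∃ m, f.natDegree = m + 1 := ⟨f.natDegree - 1, by omega⟩
    rw [hm, Nat.add_sub_cancel, mul_add, mul_one]
  exact_mod_cast h1

/-- the size of the norm -/
theorem norm_gam_le (hx : aeval x f = 0) (D : ℕ) :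
    ∃ C : ℝ, 1 ≤ C ∧ ∀ R : ℝ, 0 ≤ R → ∀ P : ℤ[X], (∀ i, (|P.coeff i| : ℝ) ≤ R) →
      (|Algebra.norm ℤ (gam x f hx D P)| : ℝ) ≤ (C * R) ^ (Module.finrank ℚ K) := by
  classical
  set C : ℝ := 1 + ∑ σ : K →ₐ[ℚ] ℂ, ∑ i ∈ Finset.range (D + 1),
    |(f.leadingCoeff : ℝ)| ^ (D - i) * ‖σ (ax x f hx : 𝓞 K)‖ ^ i with hC
  have hC1 : 1 ≤ C := by
    rw [hC]
    have : 0 ≤ ∑ σ : K →ₐ[ℚ] ℂ, ∑ i ∈ Finset.range (D + 1),
      |(f.leadingCoeff : ℝ)| ^ (D - i) * ‖σ (ax x f hx : 𝓞 K)‖ ^ i := by positivity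
    linarith
  refine ⟨C, hC1, fun R hR P hP => ?_⟩
  have h1 : (|Algebra.norm ℤ (gam x f hx D P)| : ℝ) =
      ‖algebraMap ℚ ℂ (Algebra.norm ℚ ((gam x f hx D P : 𝓞 K) : K))‖ := by
    rw [← Algebra.coe_norm_int]
    simp
  rw [h1, Algebra.norm_eq_prod_embeddings ℚ ℂ, norm_prod]
  have h2 : ∀ σ : K →ₐ[ℚ] ℂ, ‖σ ((gam x f hx D P : 𝓞 K) : K)‖ ≤ C * R := by
    intro σ
    have h3 : σ ((gam x f hx D P : 𝓞 K) : K) = ∑ i ∈ Finset.range (D + 1),
        ((P.coeff i * f.leadingCoeff ^ (D - i) : ℤ) : ℂ) * σ (ax x f hx : 𝓞 K) ^ i := by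
      rw [coe_gam_sum, map_sum]
      refine Finset.sum_congr rfl fun i _ => ?_
      rw [map_mul, map_pow, map_intCast]
    rw [h3]
    refine (norm_sum_le _ _).trans ?_
    have h4 : ∀ i ∈ Finset.range (D + 1),
        ‖((P.coeff i * f.leadingCoeff ^ (D - i) : ℤ) : ℂ) * σ (ax x f hx : 𝓞 K) ^ i‖ ≤
          (|(f.leadingCoeff : ℝ)| ^ (D - i) * ‖σ (ax x f hx : 𝓞 K)‖ ^ i) * R := by
      intro i _
      rw [norm_mul, norm_pow, Complex.norm_intCast]
      push_cast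
      rw [abs_mul, abs_pow]
      have h5 := hP i
      have h6 : 0 ≤ |(f.leadingCoeff : ℝ)| ^ (D - i) * ‖σ (ax x f hx : 𝓞 K)‖ ^ i := by positivity
      calc |(P.coeff i : ℝ)| * |(f.leadingCoeff : ℝ)| ^ (D - i) * ‖σ (ax x f hx : 𝓞 K)‖ ^ i =
            |(P.coeff i : ℝ)| * (|(f.leadingCoeff : ℝ)| ^ (D - i) * ‖σ (ax x f hx : 𝓞 K)‖ ^ i) := by
            ring
        _ ≤ R * (|(f.leadingCoeff : ℝ)| ^ (D - i) * ‖σ (ax x f hx : 𝓞 K)‖ ^ i) :=
            mul_le_mul_of_nonneg_right h5 h6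
        _ = _ := by ring
    refine (Finset.sum_le_sum h4).trans ?_
    rw [← Finset.sum_mul]
    refine mul_le_mul_of_nonneg_right ?_ hR
    rw [hC]
    have h5 := Finset.single_le_sum (f := fun σ : K →ₐ[ℚ] ℂ => ∑ i ∈ Finset.range (D + 1),
      |(f.leadingCoeff : ℝ)| ^ (D - i) * ‖σ (ax x f hx : 𝓞 K)‖ ^ i)
      (fun σ _ => by positivity) (Finset.mem_univ σ)
    linarith
  calc ∏ σ : K →ₐ[ℚ] ℂ, ‖σ ((gam x f hx D P : 𝓞 K) : K)‖ ≤ ∏ _σ : K →ₐ[ℚ] ℂ, (C * R) :=
        Finset.prod_le_prod (fun σ _ => norm_nonneg _) (fun σ _ => h2 σ)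
    _ = (C * R) ^ (Module.finrank ℚ K) := by
        rw [Finset.prod_const, Finset.card_univ, AlgHom.card]

end Run7.h742.DG
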