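import Pool.Agent.Run7.h742.DG.Smo

/-!
# The radical of the values of a product of polynomials, with full weights for the factors whose
# values are not divisible by large squares (helper742)
-/

set_option autoImplicit false

namespace Run7.h742.DG

open Polynomial Pool.Agent.TH910.Voj Pool.Agent.H813R3.Voj Pool.Agent.N445.VW Run7.h742.UN

/-- a denominator and a tuple of polynomials -/
def ClMM {r : ℕ} (k : Fin r → ℕ) (A B : ℕ) (q : ℤ × (Fin r → ℤ[X])) : Prop :=
  ClM k A B q.2 ∧ q.1 ≠ 0 ∧ |q.1| ≤ (B : ℤ) ^ A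

/-- **The truncated counting function of the integers, uniformly in the divisor, the set of
primes and the denominator.** -/
theorem us_main2 {r : ℕ} (k : Fin r → ℕ) (hk : ∀ j, 1 ≤ k j) (A : ℕ) (J : Finset (Fin r))
    (θ η : ℝ) (hθ : θ + η < ∑ j, ((if j ∈ J then k j else min (k j) 2 : ℕ) : ℝ)) :
    US (ClMM k A) (fun B q t => (∀ j ∈ J, ∀ p : ℕ, p.Prime → (B : ℝ) ^ ((1 : ℝ) / 2) < p →
        ¬ (p : ℤ) ^ 2 ∣ (q.2 j).eval t) ∧ ((∃ j, (q.2 j).eval t = 0) ∨ ∃ S : Finset ℕ,
      ∑ p ∈ S, Real.log (p : ℝ) ≤ η * Real.log B ∧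
      logRad (S ∪ q.1.natAbs.primeFactors) (∏ j, (q.2 j).eval t) < θ * Real.log B)) := by
  classical
  set m : Fin r → ℕ := fun j => if j ∈ J then k j else min (k j) 2 with hm
  set Δ : ℝ := (∑ j, (m j : ℝ)) - (θ + η) with hΔ
  have hΔ0 : 0 < Δ := by rw [hΔ]; linarith
  set ρ : ℝ := Δ / (4 * (r + 1) * (r + 1)) with hρ
  have hρ0 : 0 < ρ := by positivity
  have hrr : (r : ℝ) * (ρ + r * ρ) + r * ρ < Δ := by
    rw [hρ]
    have hq : (0 : ℝ) ≤ r := Nat.cast_nonneg r
    have h1 : (r : ℝ) * (Δ / (4 * (r + 1) * (r + 1)) + r * (Δ / (4 * (r + 1) * (r + 1)))) +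
        r * (Δ / (4 * (r + 1) * (r + 1))) = Δ * (r * (r + 2) / (4 * (r + 1) * (r + 1))) := by
      field_simp
      ring
    rw [h1]
    have h2 : (r : ℝ) * (r + 2) / (4 * (r + 1) * (r + 1)) < 1 := by
      rw [div_lt_one (by positivity)]
      nlinarith
    nlinarith
  have hz : ∀ j, US (ClMM k A) (fun B q t => (q.2 j).primPart.eval t = 0 ∨
      ((q.2 j).primPart.eval t ≠ 0 ∧ (j ∈ J → ∀ p : ℕ, p.Prime → (B : ℝ) ^ ((1 : ℝ) / 2) < p →
          ¬ (p : ℤ) ^ 2 ∣ (q.2 j).primPart.eval t) ∧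
        (rd ((q.2 j).primPart.eval t).natAbs : ℝ) ≤ (B : ℝ) ^ ((m j : ℝ) - ρ))) := by
    intro j
    refine US.or ?_ ?_
    · refine ⟨1, one_pos, k j + 1, by positivity, fun B hB q hq T hT => ?_⟩
      obtain ⟨h1, h2, -⟩ := hq.1.data
      have h3 : T.card ≤ (q.2 j).primPart.roots.toFinset.card := by
        refine Finset.card_le_card fun t ht => ?_
        rw [Multiset.mem_toFinset, mem_roots (h2 j).prim.ne_zero]
        exact (hT t ht).2
      have h4 : T.card ≤ k j := h3.trans ((Multiset.toFinset_card_le _).trans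
        ((card_roots' _).trans (h2 j).deg.le))
      have h5 : (T.card : ℝ) ≤ k j := by exact_mod_cast h4
      rw [sub_self, Real.rpow_zero, mul_one]
      linarith
    · by_cases hj : j ∈ J
      · have hmj : m j = k j := by rw [hm]; simp only; rw [if_pos hj]
        rw [hmj]
        refine ((us_smooth (k j) A (hk j) ρ hρ0).comap
          (fun q : ℤ × (Fin r → ℤ[X]) => (q.2 j).primPart)
          fun B q _ hq => (hq.1.data).2.1 j).mono ?_
        rintro B q t - - - ⟨h1, h2, h3⟩
        exact ⟨h1, h2 hj, h3⟩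
      · have hmj : m j = min (k j) 2 := by rw [hm]; simp only; rw [if_neg hj]
        rw [hmj]
        refine ((us_rad (k j) A (hk j) (min (k j) 2 : ℕ) ρ hρ0
          (by exact_mod_cast min_le_left (k j) 2) (by exact_mod_cast min_le_right (k j) 2)).comap
          (fun q : ℤ × (Fin r → ℤ[X]) => (q.2 j).primPart)
          fun B q _ hq => (hq.1.data).2.1 j).mono ?_
        rintro B q t - - - ⟨h1, h2, h3⟩
        exact ⟨h1, h3⟩
  have hg : ∀ j i, US (ClMM k A) (fun B q t => i ≠ j ∧ ((q.2 j).primPart.eval t ≠ 0 ∧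
      (B : ℝ) ^ ρ < rd (Int.gcd ((q.2 j).primPart.eval t) ((q.2 i).primPart.eval t)))) := by
    intro j i
    by_cases hij : i = j
    · exact US.false.mono fun B f t _ _ _ h => h.1 hij
    · exact ((us_gcd (k j) (k i) A hρ0).comap
        (fun q : ℤ × (Fin r → ℤ[X]) => ((q.2 j).primPart, (q.2 i).primPart))
          fun B q _ hq => (hq.1.data).2.2 i j hij).mono fun B f t _ _ _ h => h.2
  have hM : ∀ j, US (ClMM k A) (fun B q t => (q.2 j).primPart.eval t ≠ 0 ∧
      (B : ℝ) ^ ρ < rd (Int.gcd ((q.2 j).primPart.eval t) q.1)) := by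
    intro j
    refine (((us_gcd (k j) 0 A hρ0).comap
        (fun q : ℤ × (Fin r → ℤ[X]) => ((q.2 j).primPart, C q.1))
          fun B q _ hq => ?_).mono fun B q t _ _ _ h => ?_)
    · obtain ⟨h1, h2, -⟩ := hq.1.data
      refine ⟨(h2 j).deg.le, (h2 j).prim, (h2 j).ht, (natDegree_C _).le, fun i => ?_, ?_⟩
      · show |(C q.1 : ℤ[X]).coeff i| ≤ _
        rw [coeff_C]
        split_ifs
        · exact hq.2.2
        · rw [abs_zero]; positivity
      · show IsCoprime ((q.2 j).primPart.map (Int.castRingHom ℚ))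
          ((C q.1 : ℤ[X]).map (Int.castRingHom ℚ))
        rw [Polynomial.map_C]
        have h5 : IsUnit ((Int.castRingHom ℚ) q.1) := by
          rw [isUnit_iff_ne_zero]
          simpa using hq.2.1
        exact (isCoprime_one_right (x := (q.2 j).primPart.map (Int.castRingHom ℚ))).of_isCoprime_of_dvd_right
          (h5.map C).dvd
    · simp only [eval_C]
      exact h
  refine (((US.exists_fin hz).or (US.exists_fin hM)).or
    (US.exists_fin fun j => US.exists_fin fun i => hg j i)).mono ?_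
  rintro B ⟨M, f⟩ t hB ⟨hf, hM0, hMB⟩ ht ⟨hbig, hbad⟩
  by_contra hcon
  rw [not_or, not_or] at hcon
  obtain ⟨⟨hc1, hcM⟩, hc2⟩ := hcon
  push Not at hc1 hc2 hcM
  simp only at hc1 hc2 hcM hbad hbig hf hM0 hMB
  have hB1 : (1 : ℝ) ≤ B := by exact_mod_cast (by omega : 1 ≤ B)
  have hBpos : (0 : ℝ) < B := by linarith
  have hB2 : (2 : ℝ) ≤ B := by exact_mod_cast hB
  have hlogB : 0 < Real.log B := Real.log_pos (by linarith)
  have ha : ∀ j, (f j).primPart.eval t ≠ 0 := fun j => (hc1 j).1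
  have hfa : ∀ j, (f j).eval t = (f j).content * (f j).primPart.eval t := by
    intro j
    conv_lhs => rw [(f j).eq_C_content_mul_primPart]
    rw [eval_mul, eval_C]
  have hdata := hf.data
  have hfne : ∀ j, (f j).eval t ≠ 0 := fun j => by
    rw [hfa]
    exact mul_ne_zero (mt content_eq_zero_iff.1 (hdata.1 j)) (ha j)
  obtain ⟨S₀, hS₀, hlt⟩ : ∃ S : Finset ℕ, ∑ p ∈ S, Real.log (p : ℝ) ≤ η * Real.log B ∧
      logRad (S ∪ M.natAbs.primeFactors) (∏ j, (f j).eval t) < θ * Real.log B := by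
    rcases hbad with ⟨j, hj⟩ | h
    · exact absurd hj (hfne j)
    · exact h
  have hbig' : ∀ j, j ∈ J → ∀ p : ℕ, p.Prime → (B : ℝ) ^ ((1 : ℝ) / 2) < p →
      ¬ (p : ℤ) ^ 2 ∣ (f j).primPart.eval t := by
    intro j hj p hp hpB hdvd
    refine hbig j hj p hp hpB ?_
    rw [hfa]
    exact Dvd.dvd.mul_left hdvd _
  set N' : ℤ := ∏ j, (f j).primPart.eval t with hN'
  have hN'0 : N' ≠ 0 := Finset.prod_ne_zero_iff.2 fun j _ => ha j
  set S : Finset ℕ := S₀ ∪ (Int.gcd M N').primeFactors with hSdef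
  have hgM : Real.log (rd (Int.gcd M N')) ≤ (r * ρ) * Real.log B := by
    rw [← Real.log_rpow hBpos]
    refine Real.log_le_log (by exact_mod_cast rd_pos _) ?_
    have e3 : (rd (Int.gcd M N') : ℝ) ≤ ∏ j, (rd (Int.gcd M ((f j).primPart.eval t)) : ℝ) := by
      exact_mod_cast rd_gcd_prod Finset.univ _ hM0 _
    refine e3.trans ?_
    calc ∏ j, (rd (Int.gcd M ((f j).primPart.eval t)) : ℝ) ≤ ∏ _j : Fin r, (B : ℝ) ^ ρ := by
          refine Finset.prod_le_prod (fun i _ => Nat.cast_nonneg _) fun j _ => ?_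
          rw [Int.gcd_comm]
          exact hcM j (ha j)
      _ = (B : ℝ) ^ (r * ρ) := by
          rw [Finset.prod_const, Finset.card_univ, Fintype.card_fin, ← Real.rpow_natCast,
            ← Real.rpow_mul hBpos.le, mul_comm]
  have hS : ∑ p ∈ S, Real.log (p : ℝ) ≤ (η + r * ρ) * Real.log B := by
    have e1 : ∑ p ∈ S, Real.log (p : ℝ) ≤ ∑ p ∈ S₀, Real.log (p : ℝ) +
        ∑ p ∈ (Int.gcd M N').primeFactors, Real.log (p : ℝ) := by
      rw [hSdef, ← Finset.sum_union_inter]
      have : 0 ≤ ∑ p ∈ S₀ ∩ (Int.gcd M N').primeFactors, Real.log (p : ℝ) :=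
        Finset.sum_nonneg fun p _ => Real.log_natCast_nonneg p
      linarith
    have e2 : ∑ p ∈ (Int.gcd M N').primeFactors, Real.log (p : ℝ) =
        Real.log (rd (Int.gcd M N')) := by
      unfold rd
      push_cast
      rw [Real.log_prod fun p hp => by
        exact_mod_cast (Nat.prime_of_mem_primeFactors hp).ne_zero]
    rw [e2] at e1
    linarith
  have hlt2 : logRad S N' < θ * Real.log B := by
    have e1 : logRad S N' ≤ logRad (S₀ ∪ M.natAbs.primeFactors) N' := by
      unfold logRad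
      refine Finset.sum_le_sum_of_subset_of_nonneg ?_ fun p _ _ => Real.log_natCast_nonneg _
      intro p hp
      rw [Finset.mem_sdiff] at hp ⊢
      refine ⟨hp.1, fun hp2 => hp.2 ?_⟩
      rw [Finset.mem_union] at hp2
      rw [hSdef, Finset.mem_union]
      rcases hp2 with h | h
      · exact Or.inl h
      · right
        rw [Nat.mem_primeFactors] at h ⊢
        refine ⟨h.1, Nat.dvd_gcd h.2.1 (Nat.dvd_of_mem_primeFactors hp.1), fun h0 => ?_⟩
        exact hM0 (Int.gcd_eq_zero_iff.1 h0).1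
    refine e1.trans_lt ?_
    refine lt_of_le_of_lt (logRad_mono _ ?_ ?_) hlt
    · exact Finset.prod_dvd_prod_of_dvd _ _ fun j _ => by rw [hfa j]; exact Dvd.intro_left _ rfl
    · exact Finset.prod_ne_zero_iff.2 fun j _ => hfne j
  set b : Fin r → ℤ := fun j => ∏ i ∈ Finset.univ.erase j, (f i).primPart.eval t with hb
  have hab : ∀ i j, i ≠ j → (f i).primPart.eval t ∣ b j := by
    intro i j hij
    exact Finset.dvd_prod_of_mem (fun i => (f i).primPart.eval t)
      (Finset.mem_erase.mpr ⟨hij, Finset.mem_univ i⟩)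
  have h1 := logRad_prod_ge S (fun j => (f j).primPart.eval t) ha b hab
  have hj : ∀ j, ((m j : ℝ) - (ρ + r * ρ)) * Real.log B ≤
      Real.log (rd ((f j).primPart.eval t).natAbs) -
        Real.log (rd (Int.gcd ((f j).primPart.eval t) (b j))) := by
    intro j
    have h3 := (hc1 j).2 (ha j) (hbig' j)
    have e1 : ((m j : ℝ) - ρ) * Real.log B ≤ Real.log (rd ((f j).primPart.eval t).natAbs) := by
      rw [← Real.log_rpow hBpos]
      exact Real.log_le_log (by positivity) h3.le
    have e2 : Real.log (rd (Int.gcd ((f j).primPart.eval t) (b j))) ≤ (r * ρ) * Real.log B := by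
      rw [← Real.log_rpow hBpos]
      refine Real.log_le_log (by exact_mod_cast rd_pos _) ?_
      have e3 : (rd (Int.gcd ((f j).primPart.eval t) (b j)) : ℝ) ≤
          ∏ i ∈ Finset.univ.erase j,
            (rd (Int.gcd ((f j).primPart.eval t) ((f i).primPart.eval t)) : ℝ) := by
        exact_mod_cast rd_gcd_prod (Finset.univ.erase j) _ (ha j) _
      refine e3.trans ?_
      calc ∏ i ∈ Finset.univ.erase j,
            (rd (Int.gcd ((f j).primPart.eval t) ((f i).primPart.eval t)) : ℝ) ≤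
            ∏ _i ∈ Finset.univ.erase j, (B : ℝ) ^ ρ := by
            refine Finset.prod_le_prod (fun i _ => Nat.cast_nonneg _) fun i hi => ?_
            exact hc2 j i (Finset.ne_of_mem_erase hi) (ha j)
        _ = ((B : ℝ) ^ ρ) ^ (Finset.univ.erase j : Finset (Fin r)).card := by
            rw [Finset.prod_const]
        _ ≤ ((B : ℝ) ^ ρ) ^ r := by
            refine pow_le_pow_right₀ (Real.one_le_rpow hB1 hρ0.le) ?_
            have := Finset.card_le_univ (Finset.univ.erase j : Finset (Fin r))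
            rwa [Fintype.card_fin] at this
        _ = (B : ℝ) ^ (r * ρ) := by
            rw [← Real.rpow_natCast, ← Real.rpow_mul hBpos.le, mul_comm]
    linarith
  have h2 := Finset.sum_le_sum fun j (_ : j ∈ Finset.univ) => hj j
  rw [← Finset.sum_mul, Finset.sum_sub_distrib, Finset.sum_const, Finset.card_univ,
    Fintype.card_fin, nsmul_eq_mul] at h2
  have h11 : (∑ j, (m j : ℝ)) = θ + η + Δ := by rw [hΔ]; ring
  rw [h11] at h2
  nlinarith

end Run7.h742.DG
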