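import Mathlib

/-!
# Resultants and norms (helper742)
-/

set_option autoImplicit false

namespace Run7.h742.DG

open Polynomial IntermediateField

theorem emb_aeval {K : Type*} [Field K] [NumberField K] (σ : K →ₐ[ℚ] ℂ) (x : K) (g : ℤ[X]) :
    σ (aeval x g) = eval (σ x) (g.map (Int.castRingHom ℂ)) := by
  rw [eval_map, aeval_def]
  refine (hom_eval₂ g (algebraMap ℤ K) (σ : K →+* ℂ) x).trans ?_
  have h1 : (σ : K →+* ℂ).comp (algebraMap ℤ K) = Int.castRingHom ℂ := RingHom.ext_int _ _
  rw [h1]
  rfl

/-- The conjugates of a generator are the complex roots of an irreducible polynomial. -/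
theorem map_embeddings {K : Type*} [Field K] [NumberField K] (x : K) (g : ℤ[X])
    (hg : Irreducible (g.map (Int.castRingHom ℚ))) (hx : aeval x g = 0)
    (hd : g.natDegree = Module.finrank ℚ K) :
    (Finset.univ : Finset (K →ₐ[ℚ] ℂ)).val.map (fun σ => σ x) =
      (g.map (Int.castRingHom ℂ)).roots := by
  classical
  have hgQ : (g.map (Int.castRingHom ℂ)) = (g.map (Int.castRingHom ℚ)).map (algebraMap ℚ ℂ) := by
    rw [Polynomial.map_map]
    congr 1
  have hxQ : aeval x (g.map (Int.castRingHom ℚ)) = 0 := by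
    rw [← hx, aeval_def, aeval_def, eval₂_map]
    congr 1
    exact RingHom.ext_int _ _
  have hgdeg : (g.map (Int.castRingHom ℚ)).natDegree = g.natDegree :=
    natDegree_map_eq_of_injective Int.cast_injective _
  -- the generator
  have hmin : minpoly ℚ x = (g.map (Int.castRingHom ℚ)) * C (g.map (Int.castRingHom ℚ)).leadingCoeff⁻¹ :=
    (minpoly.eq_of_irreducible hg hxQ).symm
  have hmindeg : (minpoly ℚ x).natDegree = g.natDegree := by
    rw [hmin, natDegree_mul_C, hgdeg]
    exact inv_ne_zero (leadingCoeff_ne_zero.2 hg.ne_zero)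
  have htop : ℚ⟮x⟯ = ⊤ := by
    refine IntermediateField.eq_of_le_of_finrank_eq le_top ?_
    rw [IntermediateField.finrank_top', adjoin.finrank (Algebra.IsIntegral.isIntegral x), hmindeg, hd]
  have hinj : Function.Injective (fun σ : K →ₐ[ℚ] ℂ => σ x) := by
    intro σ τ h
    have h1 : Algebra.adjoin ℚ {x} = ⊤ := by
      rw [← IntermediateField.adjoin_simple_toSubalgebra_of_isAlgebraic
        (Algebra.IsAlgebraic.isAlgebraic x), htop, IntermediateField.top_toSubalgebra]
    refine AlgHom.ext_of_adjoin_eq_top h1 ?_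
    rintro y rfl
    exact h
  have hg0 : g.map (Int.castRingHom ℂ) ≠ 0 := by
    rw [hgQ]
    exact (Polynomial.map_ne_zero_iff (algebraMap ℚ ℂ).injective).2 hg.ne_zero
  refine Multiset.eq_of_le_of_card_le ?_ ?_
  · rw [Multiset.le_iff_subset]
    · intro y hy
      rw [Multiset.mem_map] at hy
      obtain ⟨σ, -, rfl⟩ := hy
      rw [mem_roots hg0, IsRoot.def, ← emb_aeval, hx, map_zero]
    · rw [Multiset.nodup_map_iff_of_injective hinj]
      exact Finset.univ.nodup
  · refine (card_roots' _).trans ?_
    rw [natDegree_map_eq_of_injective (RingHom.injective_int _), Multiset.card_map, hd,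
      Finset.card_val, Finset.card_univ, AlgHom.card]

/-- The resultant is a norm. -/
theorem resultant_eq_norm {K : Type*} [Field K] [NumberField K] (x : K) (g : ℤ[X])
    (hg : Irreducible (g.map (Int.castRingHom ℚ))) (hx : aeval x g = 0)
    (hd : g.natDegree = Module.finrank ℚ K) (h : ℤ[X]) (D : ℕ) (hD : h.natDegree ≤ D) :
    ((resultant g h g.natDegree D : ℤ) : ℚ) = (g.leadingCoeff : ℚ) ^ D * Algebra.norm ℚ (aeval x h) := by
  have hinj : Function.Injective (algebraMap ℚ ℂ) := (algebraMap ℚ ℂ).injective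
  apply hinj
  have h1 := resultant_eq_prod_eval (g.map (Int.castRingHom ℂ)) (h.map (Int.castRingHom ℂ)) D
    (natDegree_map_le.trans hD) (IsAlgClosed.splits _)
  rw [natDegree_map_eq_of_injective (RingHom.injective_int _), resultant_map_map,
    leadingCoeff_map_of_injective (RingHom.injective_int _), ← map_embeddings x g hg hx hd,
    Multiset.map_map] at h1
  rw [map_mul, map_pow, Algebra.norm_eq_prod_embeddings ℚ ℂ]
  simp only [eq_intCast, map_intCast] at h1 ⊢
  rw [h1]
  congr 1
  show (Multiset.map _ _).prod = _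
  rw [Finset.prod_eq_multiset_prod]
  congr 1
  refine Multiset.map_congr rfl fun σ _ => ?_
  exact (emb_aeval σ x h).symm

end Run7.h742.DG
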