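import Pool.Agent.Run7.h742.DG.Asm

/-!
# From primes dividing resultants to places (helper742)
-/

set_option autoImplicit false

namespace Run7.h742.DG

open Polynomial NumberField IsDedekindDomain

variable {L : Type} [Field L] [NumberField L]

/-- Modulo `v`, the point `x` lies on the divisor of zeros of `f`: the local height at `v` of `x`
with respect to this divisor, `- log (|f(x)|_v / max(1, |x|_v) ^ (deg f))`, is positive. -/
def Near (v : HeightOneSpectrum (𝓞 L)) (x : L) (f : ℤ[X]) : Prop :=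
  v.valuation L (aeval x f) < max 1 (v.valuation L x) ^ f.natDegree

theorem near_of_le {v : HeightOneSpectrum (𝓞 L)} {x : L} {f : ℤ[X]}
    (h : v.valuation L (aeval x f) < 1) : Near v x f :=
  h.trans_le (one_le_pow₀ (le_max_left _ _))

theorem lt_one_finite (y : L) (hy : y ≠ 0) :
    {v : HeightOneSpectrum (𝓞 L) | v.valuation L y < 1}.Finite := by
  refine (HeightOneSpectrum.Support.finite (R := 𝓞 L) y⁻¹).subset fun v hv => ?_
  rw [Set.mem_ofPred_eq] at hv
  show 1 < v.valuation L y⁻¹
  rw [map_inv₀, one_lt_inv₀]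
  · exact hv
  · rw [zero_lt_iff]
    exact (Valuation.ne_zero_iff _).2 hy

theorem gt_one_finite (y : L) :
    {v : HeightOneSpectrum (𝓞 L) | 1 < v.valuation L y}.Finite :=
  HeightOneSpectrum.Support.finite (R := 𝓞 L) y

theorem near_finite (x : L) (f : ℤ[X]) (hf : aeval x f ≠ 0) :
    {v : HeightOneSpectrum (𝓞 L) | Near v x f}.Finite := by
  refine ((lt_one_finite _ hf).union (gt_one_finite x)).subset fun v hv => ?_
  rw [Set.mem_ofPred_eq, Near] at hv
  by_cases h : 1 < v.valuation L x
  · exact Or.inr h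
  · left
    rw [max_eq_left (not_lt.1 h), one_pow] at hv
    exact hv

theorem exists_place {x : L} {P : ℤ[X]} (hP : Irreducible (P.map (Int.castRingHom ℚ)))
    (hx : aeval x P = 0) (hd : P.natDegree = Module.finrank ℚ L) (f : ℤ[X]) {p : ℕ}
    (hp : p.Prime) (hpM : ¬ (p : ℤ) ∣ P.leadingCoeff)
    (hpr : (p : ℤ) ∣ resultant f P f.natDegree P.natDegree) :
    ∃ v : HeightOneSpectrum (𝓞 L), v.asIdeal.under ℤ = .span {(p : ℤ)} ∧ Near v x f := by
  have h1 := norm_gam x P hP hx hd f.natDegree f le_rfl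
  have h2 : (p : ℤ) ∣ resultant P f P.natDegree f.natDegree := by
    rw [resultant_comm]
    exact Dvd.dvd.mul_left hpr _
  have h3 : (p : ℤ) ∣ Algebra.norm ℤ (gam x P hx f.natDegree f) := by
    rw [h1]
    exact Dvd.dvd.mul_left h2 _
  have h4 : p ∣ Ideal.absNorm (Ideal.span {gam x P hx f.natDegree f}) := by
    rw [Ideal.absNorm_span_singleton]
    exact Int.natCast_dvd.1 h3
  obtain ⟨Q, hQm, hQu, hQd⟩ := Ideal.exists_isMaximal_dvd_of_dvd_absNorm' hp _ h4
  have hmem : gam x P hx f.natDegree f ∈ Q :=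
    Ideal.dvd_iff_le.1 hQd (Ideal.mem_span_singleton_self _)
  have hQ0 : Q ≠ ⊥ := by
    rintro rfl
    rw [Ideal.under_def, Ideal.comap_bot_of_injective _ (FaithfulSMul.algebraMap_injective ℤ (𝓞 L))]
      at hQu
    have := hQu.symm
    rw [Ideal.span_singleton_eq_bot] at this
    exact hp.ne_zero (by exact_mod_cast this)
  set v : HeightOneSpectrum (𝓞 L) := ⟨Q, hQm.isPrime, hQ0⟩ with hv
  have hMQ : ((P.leadingCoeff : ℤ) : 𝓞 L) ∉ Q := by
    intro h
    apply hpM
    have h5 : P.leadingCoeff ∈ Q.under ℤ := by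
      rw [Ideal.under_def, Ideal.mem_comap]
      simpa using h
    rw [hQu, Ideal.mem_span_singleton] at h5
    exact h5
  have hvM : v.valuation L ((P.leadingCoeff : ℤ) : L) = 1 := by
    have h5 : ((P.leadingCoeff : ℤ) : L) = algebraMap (𝓞 L) L ((P.leadingCoeff : ℤ) : 𝓞 L) := by
      rw [map_intCast]
    rw [h5]
    refine le_antisymm (v.valuation_le_one _) (not_lt.1 fun h => hMQ ?_)
    exact (v.valuation_lt_one_iff_mem _).1 h
  refine ⟨v, hQu, near_of_le ?_⟩
  have h5 := coe_gam x P hx f.natDegree f le_rfl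
  have h6 : v.valuation L (aeval x f) = v.valuation L ((gam x P hx f.natDegree f : 𝓞 L) : L) := by
    rw [h5, map_mul, map_pow, hvM, one_pow, one_mul]
  rw [h6]
  exact (v.valuation_lt_one_iff_mem _).2 hmem

end Run7.h742.DG
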