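import Pool.Agent.Run7.h742.DG.Big2
import Pool.Agent.Run7.h742.DG.Mn2

/-!
# The resultant as a polynomial in the constant coefficient (helper742)
-/

set_option autoImplicit false

namespace Run7.h742.DG

open Polynomial Run7.h742.UN

/-- the resultant of `f` and `W + t` -/
noncomputable def Hs (f W : ℤ[X]) (D : ℕ) : ℤ[X] :=
  resultant (f.map C) (W.map C + C X) f.natDegree D

theorem Hs_eval (f W : ℤ[X]) (D : ℕ) (t : ℤ) :
    (Hs f W D).eval t = resultant f (W + C t) f.natDegree D := by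
  unfold Hs
  have h1 := resultant_map_map (evalRingHom t) (f := f.map C) (g := W.map C + C X)
    (m := f.natDegree) (n := D)
  have h2 : (f.map C).map (evalRingHom t) = f := by
    rw [Polynomial.map_map]
    have : (evalRingHom t).comp C = RingHom.id ℤ := RingHom.ext_int _ _
    rw [this, Polynomial.map_id]
  have h3 : (W.map C + C X).map (evalRingHom t) = W + C t := by
    rw [Polynomial.map_add, Polynomial.map_map, Polynomial.map_C]
    have : (evalRingHom t).comp C = RingHom.id ℤ := RingHom.ext_int _ _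
    rw [this, Polynomial.map_id, coe_evalRingHom, eval_X]
  rw [h2, h3] at h1
  rw [h1]
  rfl

theorem Hs_map (f W : ℤ[X]) (D : ℕ) (hW : W.natDegree ≤ D) :
    (Hs f W D).map (Int.castRingHom ℂ) = C ((f.leadingCoeff : ℂ) ^ D) *
      ((f.map (Int.castRingHom ℂ)).roots.map
        (fun r => X - C (-(W.map (Int.castRingHom ℂ)).eval r))).prod := by
  refine Polynomial.funext fun t => ?_
  rw [eval_map]
  have h1 := resultant_map_map (eval₂RingHom (Int.castRingHom ℂ) t) (f := f.map C)
    (g := W.map C + C X) (m := f.natDegree) (n := D)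
  have hc : (eval₂RingHom (Int.castRingHom ℂ) t).comp C = Int.castRingHom ℂ := RingHom.ext_int _ _
  have h2 : (f.map C).map (eval₂RingHom (Int.castRingHom ℂ) t) = f.map (Int.castRingHom ℂ) := by
    rw [Polynomial.map_map, hc]
  have h3 : (W.map C + C X).map (eval₂RingHom (Int.castRingHom ℂ) t) =
      W.map (Int.castRingHom ℂ) + C t := by
    rw [Polynomial.map_add, Polynomial.map_map, Polynomial.map_C, hc, coe_eval₂RingHom, eval₂_X]
  rw [h2, h3] at h1
  have h4 := resultant_eq_prod_eval (f.map (Int.castRingHom ℂ))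
    (W.map (Int.castRingHom ℂ) + C t) D
    ((natDegree_add_le _ _).trans (max_le (natDegree_map_le.trans hW) (by
      rw [natDegree_C]; exact Nat.zero_le _))) (IsAlgClosed.splits _)
  rw [natDegree_map_eq_of_injective (RingHom.injective_int _),
    leadingCoeff_map_of_injective (RingHom.injective_int _)] at h4
  have h5 : eval₂ (Int.castRingHom ℂ) t (Hs f W D) =
      (eval₂RingHom (Int.castRingHom ℂ) t) (Hs f W D) := rfl
  rw [h5]
  unfold Hs
  rw [← h1, h4, eval_mul, eval_C, eval_multiset_prod, Multiset.map_map]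
  congr 1
  congr 1
  refine Multiset.map_congr rfl fun r _ => ?_
  simp only [eval_add, eval_C, Function.comp_apply, eval_sub, eval_X]
  ring

theorem Hs_natDegree (f W : ℤ[X]) (D : ℕ) (hf : f ≠ 0) (hW : W.natDegree ≤ D) :
    (Hs f W D).natDegree = f.natDegree := by
  have hlc : (f.leadingCoeff : ℂ) ^ D ≠ 0 := by
    refine pow_ne_zero _ ?_
    exact_mod_cast leadingCoeff_ne_zero.2 hf
  rw [← natDegree_map_eq_of_injective (RingHom.injective_int (Int.castRingHom ℂ)) (Hs f W D),
    Hs_map f W D hW, natDegree_C_mul hlc]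
  have h1 : ((f.map (Int.castRingHom ℂ)).roots.map
      (fun r => X - C (-(W.map (Int.castRingHom ℂ)).eval r))) =
      ((f.map (Int.castRingHom ℂ)).roots.map
        (fun r => -(W.map (Int.castRingHom ℂ)).eval r)).map (fun a => X - C a) := by
    rw [Multiset.map_map]; rfl
  rw [h1, natDegree_multiset_prod_X_sub_C_eq_card, Multiset.card_map,
    ← (IsAlgClosed.splits (f.map (Int.castRingHom ℂ))).natDegree_eq_card_roots,
    natDegree_map_eq_of_injective (RingHom.injective_int _)]

theorem exists_root_bound (f : ℤ[X]) :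
    ∃ ρ : ℝ, 1 ≤ ρ ∧ ∀ r ∈ (f.map (Int.castRingHom ℂ)).roots, ‖r‖ ≤ ρ := by
  classical
  obtain ⟨M, hM⟩ := ((f.map (Int.castRingHom ℂ)).roots.toFinset.image (fun r => ‖r‖)).bddAbove
  refine ⟨max M 1, le_max_right _ _, fun r hr => (hM ?_).trans (le_max_left _ _)⟩
  rw [Finset.mem_coe, Finset.mem_image]
  exact ⟨r, Multiset.mem_toFinset.2 hr, rfl⟩

theorem Hs_coeff (f : ℤ[X]) (D : ℕ) : ∃ A : ℕ, ∀ B : ℕ, 2 ≤ B → ∀ W : ℤ[X], W.natDegree ≤ D →
    (∀ i, |W.coeff i| ≤ 2 * (B : ℤ)) → ∀ i, |(Hs f W D).coeff i| ≤ (B : ℤ) ^ A := by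
  classical
  obtain ⟨ρ, hρ1, hρ⟩ := exists_root_bound f
  set k := f.natDegree with hk
  set E : ℝ := |(f.leadingCoeff : ℝ)| ^ D * (1 + 2 * (D + 1) * ρ ^ D) ^ k * 2 ^ k with hE
  obtain ⟨m, hm⟩ := pow_unbounded_of_one_lt E (by norm_num : (1 : ℝ) < 2)
  refine ⟨m + k, fun B hB W hW hWc i => ?_⟩
  have hB2 : (2 : ℝ) ≤ B := by exact_mod_cast hB
  have hB1 : (1 : ℝ) ≤ B := by linarith
  have hρ0 : 0 ≤ ρ := by linarith
  -- the roots of the monic polynomial
  set P : ℂ[X] := ((f.map (Int.castRingHom ℂ)).roots.map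
    (fun r => X - C (-(W.map (Int.castRingHom ℂ)).eval r))).prod with hP
  have hP' : P = (((f.map (Int.castRingHom ℂ)).roots.map
      (fun r => -(W.map (Int.castRingHom ℂ)).eval r)).map (fun a => X - C a)).prod := by
    rw [hP, Multiset.map_map]; rfl
  have hPm : P.Monic := by
    rw [hP']
    exact monic_multisetProd_X_sub_C _
  have hPr : P.roots = (f.map (Int.castRingHom ℂ)).roots.map
      (fun r => -(W.map (Int.castRingHom ℂ)).eval r) := by
    rw [hP']
    exact roots_multiset_prod_X_sub_C _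
  have hPd : P.natDegree = k := by
    rw [hP', natDegree_multiset_prod_X_sub_C_eq_card, Multiset.card_map,
      ← (IsAlgClosed.splits (f.map (Int.castRingHom ℂ))).natDegree_eq_card_roots,
      natDegree_map_eq_of_injective (RingHom.injective_int _)]
  set b : ℝ := 2 * (D + 1) * ρ ^ D * B with hb
  have hb0 : 0 ≤ b := by positivity
  have hroots : ∀ w ∈ (P.map (RingHom.id ℂ)).roots, ‖w‖ ≤ b := by
    intro w hw
    rw [Polynomial.map_id, hPr, Multiset.mem_map] at hw
    obtain ⟨r, hr, rfl⟩ := hw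
    rw [norm_neg, eval_map, eval₂_eq_sum_range' _ (Nat.lt_succ_of_le hW)]
    refine (norm_sum_le _ _).trans ?_
    have h1 : ∀ j ∈ Finset.range (D + 1), ‖(Int.castRingHom ℂ) (W.coeff j) * r ^ j‖ ≤
        2 * B * ρ ^ D := by
      intro j hj
      rw [Finset.mem_range] at hj
      rw [norm_mul, norm_pow, eq_intCast, Complex.norm_intCast]
      refine mul_le_mul ?_ ?_ (by positivity) (by positivity)
      · exact_mod_cast hWc j
      · calc ‖r‖ ^ j ≤ ρ ^ j := pow_le_pow_left₀ (norm_nonneg r) (hρ r hr) j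
          _ ≤ ρ ^ D := pow_le_pow_right₀ hρ1 (by omega)
    refine (Finset.sum_le_sum h1).trans (le_of_eq ?_)
    rw [Finset.sum_const, Finset.card_range, nsmul_eq_mul, hb]
    push_cast
    ring
  have h2 := coeff_le_of_roots_le i hPm (IsAlgClosed.splits (P.map (RingHom.id ℂ))) hroots
  rw [Polynomial.map_id, hPd] at h2
  have h3 : ‖P.coeff i‖ ≤ (1 + b) ^ k * 2 ^ k := by
    refine h2.trans (mul_le_mul ?_ ?_ (by positivity) (by positivity))
    · calc b ^ (k - i) ≤ (1 + b) ^ (k - i) := pow_le_pow_left₀ hb0 (by linarith) _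
        _ ≤ (1 + b) ^ k := pow_le_pow_right₀ (by linarith) (Nat.sub_le _ _)
    · have h4 : k.choose i ≤ 2 ^ k := Nat.choose_le_two_pow k i
      exact_mod_cast h4
  have h4 : ((|(Hs f W D).coeff i| : ℤ) : ℝ) = ‖((Hs f W D).map (Int.castRingHom ℂ)).coeff i‖ := by
    rw [coeff_map, eq_intCast, Complex.norm_intCast]
    push_cast
    rfl
  have h5 : ((|(Hs f W D).coeff i| : ℤ) : ℝ) ≤ ((B : ℤ) ^ (m + k) : ℤ) := by
    rw [h4, Hs_map f W D hW, coeff_C_mul, norm_mul, norm_pow, Complex.norm_intCast]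
    have h6 : 1 + b ≤ (1 + 2 * (D + 1) * ρ ^ D) * B := by
      rw [hb]
      have : (0 : ℝ) ≤ 2 * (D + 1) * ρ ^ D := by positivity
      nlinarith
    calc |(f.leadingCoeff : ℝ)| ^ D * ‖P.coeff i‖ ≤
          |(f.leadingCoeff : ℝ)| ^ D * ((1 + b) ^ k * 2 ^ k) :=
          mul_le_mul_of_nonneg_left h3 (by positivity)
      _ ≤ |(f.leadingCoeff : ℝ)| ^ D * (((1 + 2 * (D + 1) * ρ ^ D) * B) ^ k * 2 ^ k) := by
          refine mul_le_mul_of_nonneg_left (mul_le_mul_of_nonneg_right ?_ (by positivity))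
            (by positivity)
          exact pow_le_pow_left₀ (by linarith) h6 k
      _ = E * (B : ℝ) ^ k := by
          rw [hE, mul_pow]
          ring
      _ ≤ (2 : ℝ) ^ m * (B : ℝ) ^ k := mul_le_mul_of_nonneg_right hm.le (by positivity)
      _ ≤ (B : ℝ) ^ m * (B : ℝ) ^ k :=
          mul_le_mul_of_nonneg_right (pow_le_pow_left₀ (by norm_num) hB2 m) (by positivity)
      _ = ((B : ℤ) ^ (m + k) : ℤ) := by
          push_cast
          rw [pow_add]
  exact_mod_cast h5

/-- The product of the resultants is squarefree as soon as the values of `W` at the roots are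
different. -/
theorem Hs_squarefree {r : ℕ} (f : Fin r → ℤ[X]) (hsq : Squarefree ((∏ j, f j).map (Int.castRingHom ℚ)))
    (W : ℤ[X]) (D : ℕ) (hW : W.natDegree ≤ D)
    (hinj : ∀ x ∈ ((∏ j, f j).map (Int.castRingHom ℂ)).roots,
      ∀ y ∈ ((∏ j, f j).map (Int.castRingHom ℂ)).roots,
      (W.map (Int.castRingHom ℂ)).eval x = (W.map (Int.castRingHom ℂ)).eval y → x = y) :
    Squarefree ((∏ j, Hs (f j) W D).map (Int.castRingHom ℚ)) := by
  classical
  have hQC : ∀ g : ℤ[X], g.map (Int.castRingHom ℂ) =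
      (g.map (Int.castRingHom ℚ)).map (algebraMap ℚ ℂ) := by
    intro g
    rw [Polynomial.map_map]
    congr 1
  have hsep : ((∏ j, f j).map (Int.castRingHom ℂ)).Separable := by
    rw [hQC]
    exact (PerfectField.separable_iff_squarefree.2 hsq).map
  have hne : (∏ j, f j) ≠ 0 := by
    intro h0
    rw [h0, Polynomial.map_zero] at hsq
    exact hsq.ne_zero rfl
  have hnej : ∀ j, f j ≠ 0 := fun j => (Finset.prod_ne_zero_iff.1 hne) j (Finset.mem_univ j)
  have hneC : (∏ j, (f j).map (Int.castRingHom ℂ)) ≠ 0 := by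
    rw [← Polynomial.map_prod]
    exact (Polynomial.map_ne_zero_iff (RingHom.injective_int _)).2 hne
  have hnodup := nodup_roots hsep
  set M := ((∏ j, f j).map (Int.castRingHom ℂ)).roots with hM
  have hMr : M = (Finset.univ : Finset (Fin r)).val.bind
      fun j => ((f j).map (Int.castRingHom ℂ)).roots := by
    rw [hM, Polynomial.map_prod, roots_prod _ _ hneC]
  have h1 : ((∏ j, Hs (f j) W D).map (Int.castRingHom ℂ)) =
      C (∏ j, ((f j).leadingCoeff : ℂ) ^ D) * ∏ x ∈ M.toFinset,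
        (X - C (-(W.map (Int.castRingHom ℂ)).eval x)) := by
    have h2 : ∏ x ∈ M.toFinset, (X - C (-(W.map (Int.castRingHom ℂ)).eval x)) =
        (M.map (fun x => X - C (-(W.map (Int.castRingHom ℂ)).eval x))).prod := by
      rw [Finset.prod_eq_multiset_prod, Multiset.toFinset_val, Multiset.dedup_eq_self.2 hnodup]
    rw [h2, hMr, Multiset.map_bind, Multiset.prod_bind, Polynomial.map_prod, map_prod,
      ← Finset.prod_eq_multiset_prod, ← Finset.prod_mul_distrib]
    exact Finset.prod_congr rfl fun j _ => Hs_map (f j) W D hW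
  have h2 : (∏ x ∈ M.toFinset, (X - C (-(W.map (Int.castRingHom ℂ)).eval x)) : ℂ[X]).Separable := by
    rw [separable_prod_X_sub_C_iff']
    intro x hx y hy hxy
    rw [Multiset.mem_toFinset] at hx hy
    exact hinj x hx y hy (neg_injective hxy)
  have hc : (∏ j, ((f j).leadingCoeff : ℂ) ^ D) ≠ 0 :=
    Finset.prod_ne_zero_iff.2 fun j _ => pow_ne_zero _ (by
      exact_mod_cast leadingCoeff_ne_zero.2 (hnej j))
  have h3 : ((∏ j, Hs (f j) W D).map (Int.castRingHom ℂ)).Separable := by
    refine h2.of_dvd ?_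
    rw [h1]
    refine ⟨C (∏ j, ((f j).leadingCoeff : ℂ) ^ D)⁻¹, ?_⟩
    rw [mul_comm (C (∏ j, ((f j).leadingCoeff : ℂ) ^ D)), mul_assoc, ← C_mul,
      mul_inv_cancel₀ hc, C_1, mul_one]
  rw [hQC, separable_map] at h3
  exact h3.squarefree

end Run7.h742.DG
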