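import Pool.Agent.Run7.h742.UN.Main

/-!
# Values without large square divisors (helper742)
-/

set_option autoImplicit false

namespace Run7.h742.DG

open Polynomial Pool.Agent.TH910.Voj Pool.Agent.H813R3.Voj Pool.Agent.N445.VW Run7.h742.UN

/-- If no square of a large prime divides the value then its radical is large. -/
theorem us_smooth (k A : ℕ) (hk1 : 1 ≤ k) (η : ℝ) (hη : 0 < η) :
    US (Cl k A) (fun B f t => f.eval t ≠ 0 ∧
      (∀ p : ℕ, p.Prime → (B : ℝ) ^ ((1 : ℝ) / 2) < p → ¬ (p : ℤ) ^ 2 ∣ f.eval t) ∧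
      (rd (f.eval t).natAbs : ℝ) ≤ (B : ℝ) ^ ((k : ℝ) - η)) := by
  classical
  set ε : ℝ := min (η / 40) (1 / 16) with hε
  have hε0 : 0 < ε := lt_min (by positivity) (by norm_num)
  have hε1 : ε ≤ η / 40 := min_le_left _ _
  have hε2 : ε ≤ 1 / 16 := min_le_right _ _
  obtain ⟨η1, hη1, S1⟩ := us_sing k A hk1 hε0 (by linarith)
  set η2 : ℝ := min η1 ε with hη2
  have hη20 : 0 < η2 := lt_min hη1 hε0
  have hη21 : η2 ≤ η1 := min_le_left _ _
  have S2 : US (Cl k A) (fun B f t => f.eval t ≠ 0 ∧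
      (B : ℝ) ^ η2 < rd (Int.gcd (f.eval t) ((derivative f).eval t))) :=
    (us_gcd k k (A + k) hη20).comap (fun f => (f, derivative f))
      fun B f hB hf => cl2_deriv k A B hB f hf
  have S3 := us_square k A hk1 hε0 (δ := 1 / 4) (by norm_num) (by norm_num)
  have S0 := us_small_value k A hk1 hε0 (by linarith)
  refine ((S0.or S1).or (S2.or S3)).mono ?_
  rintro B f t hB hf ht ⟨hne, hbig, hrad⟩
  by_contra hcon
  rw [not_or, not_or, not_or] at hcon
  obtain ⟨⟨n0, n1⟩, n2, n3⟩ := hcon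
  have hBr : (1 : ℝ) ≤ B := by exact_mod_cast (by omega : 1 ≤ B)
  have hBpos : (0 : ℝ) < B := by linarith
  have hB2 : (1 : ℝ) < B := by exact_mod_cast (by omega : 1 < B)
  set N := (f.eval t).natAbs with hN
  have hN0 : N ≠ 0 := Int.natAbs_ne_zero.2 hne
  have hNlow : (B : ℝ) ^ ((k : ℝ) - ε) < N := by
    by_contra h
    push Not at h
    exact n0 ⟨hne, h⟩
  have hdvdN : ∀ d : ℕ, d ∣ N → (d : ℤ) ∣ f.eval t := fun d hd => Int.natCast_dvd.2 hd
  obtain ⟨s0, M, hMN, hsq⟩ := Nat.sq_mul_squarefree N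
  have hM0 : M ≠ 0 := by
    rintro rfl
    simp at hMN
    omega
  obtain ⟨Ms, Mn, hMs, hMsp, hMnp⟩ := exists_split M hM0
    (fun p => (p : ℤ) ∣ (derivative f).eval t)
  have hMdvd : M ^ 2 ∣ N := ⟨s0, hMN.symm⟩
  have hMsM : Ms ∣ M := Dvd.intro _ hMs
  have hMnM : Mn ∣ M := Dvd.intro_left _ hMs
  have hMN1 : M ∣ N := (dvd_pow_self M two_ne_zero).trans hMdvd
  -- divisors whose primes divide the derivative
  have hsing : ∀ t' : ℕ, t' ∣ N → (∀ p : ℕ, p.Prime → p ∣ t' → (p : ℤ) ∣ (derivative f).eval t) →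
      (rd t' : ℝ) ≤ (B : ℝ) ^ η2 := by
    intro t' htN htp
    have hg0 : Int.gcd (f.eval t) ((derivative f).eval t) ≠ 0 := fun h =>
      hne (Int.gcd_eq_zero_iff.mp h).1
    have h1 : rd t' ≤ 1 * rd (Int.gcd (f.eval t) ((derivative f).eval t)) := by
      refine rd_le_mul t' _ _ one_ne_zero hg0 ?_
      intro p hp hpM
      right
      have h3 : (p : ℤ) ∣ f.eval t := hdvdN p (hpM.trans htN)
      exact Nat.dvd_gcd (Int.natCast_dvd.1 h3) (Int.natCast_dvd.1 (htp p hp hpM))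
    have h2 : (rd (Int.gcd (f.eval t) ((derivative f).eval t)) : ℝ) ≤ (B : ℝ) ^ η2 := by
      by_contra h3
      push Not at h3
      exact n2 ⟨hne, h3⟩
    rw [one_mul] at h1
    exact le_trans (by exact_mod_cast h1) h2
  -- the singular part
  have bMs : (Ms : ℝ) ≤ (B : ℝ) ^ ε := by
    by_contra h
    push Not at h
    refine n1 ⟨hne, Ms, hdvdN Ms (hMsM.trans hMN1), h, ?_⟩
    exact (hsing Ms (hMsM.trans hMN1) hMsp).trans
      (Real.rpow_le_rpow_of_exponent_le hBr hη21)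
  -- the non-singular part
  have hBε : 1 ≤ (B : ℝ) ^ ε := Real.one_le_rpow hBr hε0.le
  have bMn : (Mn : ℝ) ≤ (B : ℝ) ^ ε := by
    by_contra h
    push Not at h
    have hsmall : ∀ p : ℕ, p.Prime → p ∣ Mn → (p : ℝ) ≤ (B : ℝ) ^ ((1 : ℝ) / 2) := by
      intro p hp hpM
      by_contra h1
      push Not at h1
      refine hbig p hp h1 ?_
      have h3 : p ^ 2 ∣ N := (pow_dvd_pow_of_dvd (hpM.trans hMnM) 2).trans hMdvd
      exact_mod_cast hdvdN _ h3
    obtain ⟨d, hd1, hd2, hd3⟩ := exists_divisor Mn _ _ hBε h hsmall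
    refine n3 ⟨d, hd2, ?_, ?_, ?_⟩
    · refine hd3.trans ?_
      rw [← Real.rpow_add hBpos]
      refine Real.rpow_le_rpow_of_exponent_le hBr ?_
      linarith
    · have h3 : d ^ 2 ∣ N := (pow_dvd_pow_of_dvd (hd1.trans hMnM) 2).trans hMdvd
      exact_mod_cast hdvdN _ h3
    · intro p hp hpd
      exact hMnp p hp (hpd.trans hd1)
  have bM1 : (M : ℝ) ^ 2 ≤ (B : ℝ) ^ (4 * ε) := by
    have h1 : (M : ℝ) = Ms * Mn := by rw [← hMs]; push_cast; rfl
    have h2 : (M : ℝ) ≤ (B : ℝ) ^ ε * (B : ℝ) ^ ε := by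
      rw [h1]; exact mul_le_mul bMs bMn (Nat.cast_nonneg _) (by positivity)
    calc (M : ℝ) ^ 2 ≤ ((B : ℝ) ^ ε * (B : ℝ) ^ ε) ^ 2 := pow_le_pow_left₀ (Nat.cast_nonneg _) h2 2
      _ = (B : ℝ) ^ (4 * ε) := by
          rw [← Real.rpow_add hBpos, ← Real.rpow_natCast, ← Real.rpow_mul hBpos.le]
          congr 1
          push_cast
          ring
  have hs0rd : s0 ≤ rd N := squarefree_le_rd s0 N hN0 hsq (Dvd.intro_left _ hMN)
  have h2 : (N : ℝ) ≤ (B : ℝ) ^ (4 * ε) * (B : ℝ) ^ ((k : ℝ) - η) := by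
    have h3 : (N : ℝ) = (M : ℝ) ^ 2 * s0 := by rw [← hMN]; push_cast; rfl
    rw [h3]
    refine mul_le_mul bM1 ?_ (Nat.cast_nonneg _) (by positivity)
    exact le_trans (by exact_mod_cast hs0rd) hrad
  have h3 : (B : ℝ) ^ (4 * ε) * (B : ℝ) ^ ((k : ℝ) - η) ≤ (B : ℝ) ^ ((k : ℝ) - ε) := by
    rw [← Real.rpow_add hBpos]
    refine Real.rpow_le_rpow_of_exponent_le hBr ?_
    linarith
  linarith

end Run7.h742.DG
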